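import Pool.Agent.Helper69.EL.Stm
import Pool.Agent.Helper69.EK.Ct

set_option autoImplicit false

/-!
# Smooth potentials, the theorem in adapted coordinates: assembly
-/

namespace Pool.Agent.Helper69.EL

open Set Filter Topology Pool.Agent.Helper6K9.ES
open Pool.Agent.Helper6K9.EH (Prof Fam eX eY dst pt Tr mkFam Pv Shf S_PROF S_FLOW)
open Pool.Agent.Helper6K9.EH.CtL (gs gs_smooth gs_per gs_der inv_entries sol_of_tr)
open Pool.Agent.Helper69.EK (Smk)
open Pool.Agent.Helper69.EK.CtL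
open scoped ContDiff

theorem ct (prof : S_PROF) (hom : S_HOM) (pot : S_POT) (env : S_ENV) (step : S_STEP)
    (iter : S_ITER) (nu : S_NU) (swi : S_SWI) (flow : S_FLOW) (ave : S_AVE) (start : S_START)
    (ops : S_OPS) : S_CT := by
  intro κ A h ε hκ hε hA hh hav
  obtain ⟨ha, hd, hs⟩ := inv_entries hA
  set α : ℝ := 1 / A 0 0 with hα
  set γ : ℝ := A 0 0 / (A 0 0 * A 1 1 - A 0 1 ^ 2) with hγ
  set b : ℝ := -(A 0 1 / A 0 0) with hb
  have α0 : 0 < α := by positivity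
  have γ0 : 0 < γ := by positivity
  obtain ⟨k, c, hk⟩ := prof
  have hc1 : c ≤ 1 := by
    have h1 := hk.le_one (1 / 2)
    rw [hk.plat (1 / 2) (by norm_num)] at h1
    exact (le_abs_self c).trans h1
  -- the constant `l`
  obtain ⟨Cg, hCg, hgs⟩ := smk_of_per κ (gs_smooth hk) (gs_per hk)
  obtain ⟨l, l0, l1, l2⟩ : ∃ l : ℝ, 0 < l ∧ l ≤ 1 / 2 ∧ l ^ 2 / γ * Cg ≤ ε / 3 := by
    have h1 : Tendsto (fun l : ℝ => l ^ 2 / γ * Cg) (𝓝[>] 0) (𝓝 ((0 : ℝ) ^ 2 / γ * Cg)) := by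
      refine Tendsto.mono_left (Continuous.tendsto ?_ 0) nhdsWithin_le_nhds
      fun_prop
    have h2 : ∀ᶠ l : ℝ in 𝓝[>] 0, l ^ 2 / γ * Cg < ε / 3 := by
      refine h1.eventually (gt_mem_nhds ?_)
      simp
      exact hε
    have h3 : ∀ᶠ l : ℝ in 𝓝[>] 0, l < 1 / 2 :=
      mem_nhdsWithin_of_mem_nhds (gt_mem_nhds (by norm_num))
    have h4 : ∀ᶠ l : ℝ in 𝓝[>] 0, 0 < l := self_mem_nhdsWithin
    obtain ⟨l, h5, h6, h7⟩ := (h2.and (h3.and h4)).exists
    exact ⟨l, h7, h6.le, h5.le⟩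
  -- the potential
  have hu : 0 < l * c := mul_pos l0 hk.cpos
  have hu1 : l * c ≤ 1 := by nlinarith [hk.cpos]
  have hb2 : 0 < 1 / (16 * (1 + |b|) ^ 2) := by positivity
  obtain ⟨j₀, S, χ, ps, cb, hj0, hshp, hS, hSs, hSi, hSv, hSt, hpot⟩ :=
    pot κ b (l * c) (min (ε / 3) (1 / (16 * (1 + |b|) ^ 2))) hκ hu hu1
      (lt_min (by positivity) hb2)
  have hSs1 : Smk κ S (ε / 3) := smk_mono hSs (min_le_left _ _)
  have hSs2 : Smk κ S (1 / (16 * (1 + |b|) ^ 2)) := smk_mono hSs (min_le_right _ _)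
  -- the static data
  obtain ⟨st, hst⟩ : ∃ st : Sta, st = ⟨α, γ, l, c, k, χ, ps, cb⟩ := ⟨_, rfl⟩
  have s1 : st.α = α := by rw [hst]
  have s2 : st.γ = γ := by rw [hst]
  have s3 : st.l = l := by rw [hst]
  have s4 : st.c = c := by rw [hst]
  have s5 : st.k = k := by rw [hst]
  have s6 : st.χ = χ := by rw [hst]
  have s7 : st.ps = ps := by rw [hst]
  have s8 : st.cb = cb := by rw [hst]
  have hok : StaOK st j₀ := by
    rw [hst]
    exact ⟨α0, γ0, l0, l1, hk, hshp, hj0⟩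
  -- the averaged part
  obtain ⟨o1, o2, o3, o4, o5, o6, o7, o8, o9, o10, o11, o12⟩ := ops 1 h hh
  set F : E 1 → ℝ := fun p => h p - av h p with hF
  have hFs : Sm F := ⟨hh.1.sub o3.1, fun p m l => by simp only [hF, hh.2 p m l, o3.2 p m l]⟩
  have hF0 : ∀ p, av F p = 0 := by
    intro p
    have i1 : ∀ G : E 1 → ℝ, Continuous G → IntervalIntegrable
        (fun s : ℝ => G (p.1 + s • Pi.single (0 : Fin (1 + 1)) (1 : ℝ), p.2))
        MeasureTheory.volume 0 1 := by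
      intro G hG
      refine Continuous.intervalIntegrable ?_ _ _
      fun_prop
    have h1 : av F p = av h p - av (av h) p :=
      intervalIntegral.integral_sub (i1 h hh.1.continuous) (i1 (av h) o3.1.continuous)
    rw [h1, o11, sub_self]
  have hdF : ∀ i p, dX i F p = dX i h p := by
    intro i p
    have h1 : DifferentiableAt ℝ h p := hh.1.differentiable (by norm_num) p
    have h2 : DifferentiableAt ℝ (av h) p := o3.1.differentiable (by norm_num) p
    have h3 : dX i (av h) p = 0 := dX_of_indep (o3.1.differentiable (by norm_num)) hav i p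
    unfold dX at h3 ⊢
    rw [hF, fderiv_fun_sub h1 h2, sub_apply, h3, sub_zero]
  -- the thresholds
  obtain ⟨H, hH⟩ := hom st j₀ hok
  obtain ⟨m, r₀, K₀, hm, hr₀, hr₁, hK₀, hstep⟩ := step st j₀ H hok hH
  have have2 := fun n : ℕ => ave (n + 3) st b (2 * m) F S (by omega) (by rwa [s1]) (by rwa [s2])
    (by rwa [s3]) (by rwa [s3]) (by positivity) (by rwa [s4, s5]) hFs hF0 hS hSi
  choose Jf wf C V₀ hC hV₀ hnear hae using have2
  have h1 := fun n : ℕ => hstep (n + 3) (C n) (V₀ n) (by omega) (hC n) (hV₀ n)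
  choose i₁ hi₁ hstep1 using h1
  have h2 := fun n n' : ℕ => swi st j₀ b r₀ K₀ (C n) (V₀ n) (C n') (V₀ n') (Jf n) (wf n)
    (Jf n') (wf n') hok hr₀ hr₁ hK₀ (hC n) (hV₀ n) (hC n') (hV₀ n') (hnear n) (hnear n')
  choose i₂ hswi using h2
  have h3 := fun n : ℕ => start st j₀ b (C n) (V₀ n) r₀ K₀ (Jf n) (wf n) hok (hC n) (hV₀ n)
    (hnear n) hr₀ hK₀
  choose i₃ hstart using h3
  obtain ⟨ν, hν1, hν2, i₀, hν3⟩ := nu
    (fun n => max (max (i₁ n) (i₃ n)) (max (i₂ n n) (i₂ n (n + 1)))) κ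
  have t1 : ∀ i, i₀ ≤ i → i₁ (ν i) ≤ i := fun i hi =>
    ((le_max_left _ _).trans (le_max_left _ _)).trans (hν3 i hi).2
  have t3 : ∀ i, i₀ ≤ i → i₃ (ν i) ≤ i := fun i hi =>
    ((le_max_right _ _).trans (le_max_left _ _)).trans (hν3 i hi).2
  have t2 : ∀ i, i₀ ≤ i → i₂ (ν i) (ν (i + 1)) ≤ i := by
    intro i hi
    rcases (hν3 i hi).1 with h | h
    · rw [h]
      exact ((le_max_left _ _).trans (le_max_right _ _)).trans (hν3 i hi).2
    · rw [h]
      exact ((le_max_right _ _).trans (le_max_right _ _)).trans (hν3 i hi).2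
  -- the kick potential
  obtain ⟨K, hK, hKs, hKv, hKt⟩ := hpot ν hν1 hν2
  have hKs1 : Smk κ K (ε / 3) := smk_mono hKs (min_le_left _ _)
  have hKs2 : Smk κ K (1 / (16 * (1 + |b|) ^ 2)) := smk_mono hKs (min_le_right _ _)
  have hKs3 : Small K 1 := by
    refine small_of_smk hκ (smk_mono hKs2 ?_)
    rw [div_le_one (by positivity)]
    nlinarith [abs_nonneg b]
  have henv := env κ st ν b S K j₀ hκ hok hS hSs2 hSi hK hKs2 hSv hKv
    (by rw [s3, s4, s6]; exact hSt) (by rw [s3, s4, s7, s8]; exact hKt)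
  obtain ⟨e, he⟩ : ∃ e : Env, e = mkEnv st ν b S K := ⟨_, rfl⟩
  rw [← he] at henv
  have het : e.toSta = st := by rw [he]; rfl
  have heν : e.ν = ν := by rw [he]; rfl
  -- the function `g`
  set g : E 1 → ℝ := fun p => l ^ 2 / γ * gs k p + (S p + K p) with hg
  have hgsκ : ContDiff ℝ κ (gs k) := contDiff_infty.1 (gs_smooth hk) κ
  have hSκ : ContDiff ℝ κ S := contDiff_infty.1 hS.1 κ
  have hKκ : ContDiff ℝ κ K := contDiff_infty.1 hK.1 κ
  have hK2 : ContDiff ℝ 2 K := contDiff_infty.1 hK.1 2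
  have hgc : ContDiff ℝ ∞ g := (contDiff_const.mul (gs_smooth hk)).add (hS.1.add hK.1)
  have hgp : Per g := by
    intro p m n
    simp only [hg, gs_per hk p m n, hK.2 p m n, hS.2 p m n]
  have hgsm : Smk κ g ε := by
    have h1 : Smk κ (fun p => l ^ 2 / γ * gs k p) (l ^ 2 / γ * Cg) :=
      smk_cmul hgsκ hgs (by positivity)
    have h2 := smk_add (contDiff_const.mul hgsκ) (hSκ.add hKκ) (smk_mono h1 l2)
      (smk_add hSκ hKκ hSs1 hKs1)
    refine smk_mono h2 (le_of_eq ?_)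
    ring
  set f : E 1 → ℝ := fun p => h p + g p with hf
  have hh2 : ContDiff ℝ 2 h := contDiff_infty.1 hh.1 2
  have hfc : ContDiff ℝ 2 f := hh2.add (contDiff_infty.1 hgc 2)
  have hfp : Per f := by
    intro p m n
    simp only [hf, hh.2 p m n, hgp p m n]
  have hdf : ∀ p, dX 0 f p = dX 0 F p + dX 0 K p ∧
      dX 1 f p = dX 1 F p + l ^ 2 / γ * k (p.1 1) * deriv k (p.1 1) + dX 1 S p + dX 1 K p := by
    intro p
    have h1 : DifferentiableAt ℝ h p := hh.1.differentiable (by norm_num) p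
    have h2 : DifferentiableAt ℝ (gs k) p := (gs_smooth hk).differentiable (by norm_num) p
    have h3 : DifferentiableAt ℝ K p := hK2.differentiable (by norm_num) p
    have h3' : DifferentiableAt ℝ S p := hS.1.differentiable (by norm_num) p
    have h4 : ∀ i, dX i f p = dX i h p + (l ^ 2 / γ * dX i (gs k) p + (dX i S p + dX i K p)) := by
      intro i
      have k1 : HasFDerivAt f (fderiv ℝ h p + ((l ^ 2 / γ) • fderiv ℝ (gs k) p +
          (fderiv ℝ S p + fderiv ℝ K p))) p :=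
        h1.hasFDerivAt.add ((h2.hasFDerivAt.const_mul _).add (h3'.hasFDerivAt.add h3.hasFDerivAt))
      unfold dX
      rw [k1.fderiv]
      simp
    have hS0 : dX 0 S p = 0 := by
      have k1 : HasDerivAt (fun s : ℝ => S (p + s • ((Pi.single 0 1, 0) : E 1)))
          (fderiv ℝ S p (Pi.single 0 1, 0)) 0 := by
        have k2 : HasDerivAt (fun s : ℝ => p + s • ((Pi.single 0 1, 0) : E 1))
            ((Pi.single 0 1, 0) : E 1) 0 := by
          simpa using ((hasDerivAt_id (0 : ℝ)).smul_const ((Pi.single 0 1, 0) : E 1)).const_add p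
        have k3 : HasFDerivAt S (fderiv ℝ S p) (p + (0 : ℝ) • ((Pi.single 0 1, 0) : E 1)) := by
          simpa using h3'.hasFDerivAt
        exact k3.comp_hasDerivAt (0 : ℝ) k2
      have k4 : (fun s : ℝ => S (p + s • ((Pi.single 0 1, 0) : E 1))) = fun _ => S p := by
        funext s
        have e1 : p + s • ((Pi.single 0 1, 0) : E 1) = pt (p.1 0 + s) (p.1 1) p.2 := by
          refine Prod.ext ?_ ?_
          · funext i
            fin_cases i <;> simp [pt]
          · simp [pt]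
        have e2 : p = pt (p.1 0) (p.1 1) p.2 := by
          refine Prod.ext ?_ ?_
          · funext i
            fin_cases i <;> simp [pt]
          · simp [pt]
        rw [e1]
        conv_rhs => rw [e2]
        exact hSi _ _ _ _
      rw [k4] at k1
      exact k1.unique (hasDerivAt_const _ _)
    obtain ⟨g0, g1⟩ := gs_der hk p
    rw [h4, h4, hdF, hdF, g0, g1, hS0]
    constructor <;> ring
  -- dynamics
  obtain ⟨p₀, p₁, v, q, hsol, hcont⟩ := flow α γ b f hfc hfp (fun s => b * s) (fun s => s)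
    (fun _ => (2 : ℝ) ^ i₀ + 1) (fun s => l * s) (by fun_prop) (by fun_prop) (by fun_prop)
    (by fun_prop)
  obtain ⟨a, c', J, ha', hc'', hgood⟩ := hstart (ν i₀) e het i₀ p₀ p₁ v q (t3 i₀ le_rfl) fun s =>
    ⟨(hsol s).2.1, (hsol s).2.2.1, (hsol s).2.2.2.1, by
      have h1 : e.l = l := by rw [← s3, ← het]
      rw [h1]
      exact (hsol s).2.2.2.2⟩
  have hshf : ∀ n : ℕ, Shf b (mkFam b (Jf n) (wf n) p₀ p₁ v q) := by
    intro n N s t
    refine ⟨?_, ?_, rfl, rfl⟩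
    · change p₀ s t - b * (p₁ s t - ((N + 1 : ℤ) : ℝ)) = p₀ s t - b * (p₁ s t - N) + b
      push_cast
      ring
    · change p₁ s t - ((N + 1 : ℤ) : ℝ) = p₁ s t - N - 1
      push_cast
      ring
  have hAE : ∀ (n : ℕ) (a₁ a₂ : ℝ) (N : ℤ), AE e (mkFam b (Jf n) (wf n) p₀ p₁ v q N) (Pv v q)
      (n + 3) (C n) (V₀ n) (2 * m) a₁ a₂ := by
    intro n a₁ a₂ N
    rw [he]
    refine hae n ν K f hK2 hK.2 hKs3 ?_ p₀ p₁ v q ?_ hcont N a₁ a₂
    · rw [s2, s3, s5]
      exact hdf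
    · rw [s1, s2]
      exact fun s => (hsol s).1
  obtain ⟨s, hs1, hs2⟩ := iter
    (fun i N a c T J => Good e (mkFam b (Jf (ν i)) (wf (ν i)) p₀ p₁ v q N) (Pv v q) r₀ K₀ (rr i) i
      a c T J) (Pv v q) i₀
    (fun i hi => by
      obtain ⟨δ, hδ, h1⟩ := hstep1 (ν i) e het henv i (t1 i hi) (by rw [heν])
      refine ⟨δ, hδ, fun N a c T J hg => ⟨hg.box.le, hg.lo, hg.hi, ?_⟩⟩
      obtain ⟨a', c', T', J', ha, hc, hT, hor, hP⟩ := h1 b (mkFam b (Jf (ν i)) (wf (ν i)) p₀ p₁ v q)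
        (Pv v q) a c T N J (hshf (ν i)) (fun N => hAE (ν i) a c N) hg
      rcases hor with ⟨hJ, hgood'⟩ | hout
      · exact ⟨a', c', T', i, J', ha, hc, hT, Or.inl ⟨rfl, hJ⟩, hgood', hP⟩
      · obtain ⟨a'', c'', J'', ha'', hc'', hgood'⟩ := hswi (ν i) (ν (i + 1)) e het i p₀ p₁ v q (N + 1)
          a' c' T' J' (t2 i hi) (hcont T') hout
        exact ⟨a'', c'', T', i + 1, J'', ha.trans ha'', hc''.trans hc, hT, Or.inr rfl, hgood',
          fun s hs => hP s ⟨ha''.trans hs.1, hs.2.trans hc''⟩⟩)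
    i₀ 0 a c' 0 J le_rfl hgood
  refine ⟨g, fun t => ![p₀ s t, p₁ s t], ⟨hgc, hgp⟩, hgsm, sol_of_tr hA f _ _ _ _ (hsol s).1, ?_⟩
  have hd0 : (deriv fun t => (![p₀ s t, p₁ s t] : Q 1) 0) = fun t => v s t + b * q s t :=
    funext fun t => ((hsol s).1 t).1.deriv
  rw [hd0, tendsto_atTop]
  intro B
  obtain ⟨T₁, hT₁⟩ := hs2 (B + 2 * |b|)
  filter_upwards [eventually_ge_atTop T₁] with t ht
  obtain ⟨V'', h1, h2, h3⟩ := hT₁ t ht
  have h4 : |b * q s t| ≤ |b| * 2 := by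
    rw [abs_mul]
    exact mul_le_mul_of_nonneg_left h3 (abs_nonneg _)
  have h5 := (abs_le.1 h4).1
  linarith

end Pool.Agent.Helper69.EL
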