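import Pool.Agent.Helper69.EK.Stm

set_option autoImplicit false

/-!
# Smooth potentials with orbits which escape to infinity on flat tori of dimension two: definitions

This is the modification of the development `EK` (class `C^κ`) to smooth potentials. The kicks in the
block `i` (velocities in `[2^i, 2^(i+1)]`) have the size `ee * dd ^ ν i` with `ν i → ∞`, and the
averaging in the block `i` is of the order `n = ν i + 3`. The static data `Sta` (everything except the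
kicks) are separated from the environment so that all the thresholds are uniform in the kicks.
-/

namespace Pool.Agent.Helper69.EL

open Set Filter Topology Pool.Agent.Helper6K9.ES
open Pool.Agent.Helper6K9.EH (Prof Fam eX eY dst pt Tr mkFam Pv Shf)
open Pool.Agent.Helper69.EK (MM tau ss ee dd qq hf eta Shp Smk NearId)
open scoped ContDiff

/-- the sizes of the kicks -/
noncomputable def aa (ν : ℕ → ℕ) (j : ℕ) : ℝ := ee j * dd j ^ ν (j / 3)

/-- the radius of the boxes in the block `i` -/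
noncomputable def rr (i : ℕ) : ℝ := √(1 / 2 ^ i)

/-- the static data -/
structure Sta where
  α : ℝ
  γ : ℝ
  l : ℝ
  c : ℝ
  k : ℝ → ℝ
  χ : ℝ → ℝ
  ps : ℝ → ℝ
  cb : ℝ → ℝ

/-- the conditions on the static data -/
structure StaOK (e : Sta) (j₀ : ℕ) : Prop where
  hα : 0 < e.α
  hγ : 0 < e.γ
  hl : 0 < e.l
  hl1 : e.l ≤ 1 / 2
  prof : Prof e.k e.c
  shp : Shp (e.l * e.c) e.χ e.ps e.cb
  j0 : 1 ≤ j₀

/-- The environment: the static data, the orders `ν` of the kicks, and the partial derivatives (in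
sheared coordinates, as functions of `x`, `y`, `t`): `Kx` of the kick potential, `Ky` of the sum of the
control potential and the kick potential, `Kz` of the kick potential (in the direction `y`). -/
structure Env extends Sta where
  ν : ℕ → ℕ
  Kx : ℝ → ℝ → ℝ → ℝ
  Ky : ℝ → ℝ → ℝ → ℝ
  Kz : ℝ → ℝ → ℝ → ℝ

/-- the conditions on the environment -/
structure EnvOK (e : Env) (j₀ : ℕ) : Prop extends StaOK e.toSta j₀ where
  cont : Continuous fun p : ℝ × ℝ × ℝ => (e.Kx p.1 p.2.1 p.2.2, e.Ky p.1 p.2.1 p.2.2)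
  bd : ∀ x y t, |e.Kx x y t| ≤ 1 ∧ |e.Ky x y t| ≤ 1 ∧ |e.Kz x y t| ≤ 1
  lip : ∀ x y x' y' t, |e.Kx x y t - e.Kx x' y' t| ≤ |x - x'| + |y - y'| ∧
    |e.Ky x y t - e.Ky x' y' t| ≤ |x - x'| + |y - y'|
  per : ∀ x y t (n : ℤ), e.Kx x y (t + n) = e.Kx x y t ∧ e.Ky x y (t + n) = e.Ky x y t ∧
    e.Kz x y (t + n) = e.Kz x y t
  van : ∀ x y t, (|y| ≤ 1 / 4 ∨ |y - 1| ≤ 1 / 4) →
    e.Kx x y t = 0 ∧ e.Ky x y t = 0 ∧ e.Kz x y t = 0
  tube : ∀ j, j₀ ≤ j → ∀ x y t, |y - 1 / 2| ≤ 1 / 4 → |eta (e.l * e.c) j y t| ≤ ss (e.l * e.c) j →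
    e.Ky x y t = ee j * (eta (e.l * e.c) j y t * e.χ y +
      eta (e.l * e.c) j y t ^ 2 / 2 * deriv e.χ y) ∧
    e.Kx x y t = aa e.ν j * e.cb ((t - tau j) / dd j) * e.ps (x - hf j) ∧
    e.Kz x y t = 0

noncomputable def ew (e : Env) (F : Fam) (s t : ℝ) : ℝ :=
  deriv (F.w s) t - (e.l ^ 2 * e.k (F.Y s t) * deriv e.k (F.Y s t) +
    e.γ * e.Ky (F.X s t) (F.Y s t) t)
noncomputable def eJ (e : Env) (F : Fam) (s t : ℝ) : ℝ :=
  deriv (F.J s) t - e.α * e.Kx (F.X s t) (F.Y s t) t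

/-- The curves with parameters in `[a, b]` satisfy, for `t ∈ [t₀, t₁]`, the equations
`X' = J`, `J' = α Kx`, `Y' = w`, `w' = l² k k' + γ Ky` up to errors of size and Lipschitz constant
`ε`; the error of `J'` is of the order `n`. -/
structure Ctl (e : Env) (F : Fam) (n : ℕ) (ε a b t₀ t₁ : ℝ) : Prop where
  dif : ∀ s ∈ Icc a b, ∀ t ∈ Icc t₀ t₁, DifferentiableAt ℝ (F.X s) t ∧
    DifferentiableAt ℝ (F.J s) t ∧ DifferentiableAt ℝ (F.Y s) t ∧ DifferentiableAt ℝ (F.w s) t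
  bd : ∀ s ∈ Icc a b, ∀ t ∈ Icc t₀ t₁, |eX F s t| ≤ ε ∧ |eY F s t| ≤ ε ∧ |ew e F s t| ≤ ε ∧
    |eJ e F s t| ≤ ε ^ n +
      ε * (|e.Kx (F.X s t) (F.Y s t) t| + |e.Kz (F.X s t) (F.Y s t) t|)
  lip : ∀ s ∈ Icc a b, ∀ s' ∈ Icc a b, ∀ t ∈ Icc t₀ t₁,
    |eX F s t - eX F s' t| ≤ ε * dst F s s' t ∧ |eY F s t - eY F s' t| ≤ ε * dst F s s' t ∧
    |ew e F s t - ew e F s' t| ≤ ε * dst F s s' t ∧ |eJ e F s t - eJ e F s' t| ≤ ε * dst F s s' t
  cts : ∀ t ∈ Icc t₀ t₁, ContinuousOn (fun s => F.X s t) (Icc a b) ∧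
    ContinuousOn (fun s => F.J s t) (Icc a b) ∧ ContinuousOn (fun s => F.Y s t) (Icc a b) ∧
    ContinuousOn (fun s => F.w s t) (Icc a b)

/-- the unstable coordinate -/
noncomputable def xi (e : Env) (F : Fam) (s t : ℝ) : ℝ := F.w s t + e.l * F.Y s t
/-- the stable coordinate -/
noncomputable def ze (e : Env) (F : Fam) (s t : ℝ) : ℝ := F.w s t - e.l * F.Y s t

/-- At the time `T` the curves with parameters in `[a, b]` form a path across the box near the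
hyperbolic equilibrium, which is a Lipschitz graph (constant `K`) over the unstable coordinate. -/
structure Box (e : Env) (F : Fam) (a b T R Z K : ℝ) : Prop where
  le : a ≤ b
  left : xi e F a T = -R
  right : xi e F b T = R
  bx : ∀ s ∈ Icc a b, |xi e F s T| ≤ R
  bz : ∀ s ∈ Icc a b, |ze e F s T| ≤ Z
  cone : ∀ s ∈ Icc a b, ∀ s' ∈ Icc a b, |ze e F s T - ze e F s' T| +
    e.l / 4 * |F.X s T - F.X s' T| + |F.J s T - F.J s' T| ≤ K * |xi e F s T - xi e F s' T|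

/-- The equations are available as long as the predicate `P V s t` (velocity at least `V`) holds at the
beginning of a time interval of length `k₂`; `P` persists. -/
def AE (e : Env) (F : Fam) (P : ℝ → ℝ → ℝ → Prop) (n : ℕ) (C V₀ k₂ a b : ℝ) : Prop :=
  ∀ V T a' b' : ℝ, V₀ ≤ V → 0 ≤ T → a ≤ a' → a' ≤ b' → b' ≤ b → (∀ s ∈ Icc a' b', P V s T) →
    Ctl e F n (C / V) a' b' T (T + k₂) ∧
    ∀ s ∈ Icc a' b', ∀ t ∈ Icc T (T + k₂), ∀ V', V₀ ≤ V' → V' + 1 ≤ F.J s t → |F.w s t| ≤ 1 →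
      P V' s t

/-- the homoclinic solution -/
structure Hom (e : Sta) (H : ℝ → ℝ) : Prop where
  der : ∀ t, HasDerivAt H (e.l * e.k (H t)) t
  pla : ∀ t, |t| * (e.l * e.c) ≤ 1 / 4 → H t = 1 / 2 + e.l * e.c * t
  mon : StrictMono H
  mem : ∀ t, 0 < H t ∧ H t < 1
  bot : Tendsto H atBot (𝓝 0)
  top : Tendsto H atTop (𝓝 1)

/-- Entrance into the loop at the integer time `T`: the path ranges over the positions from which the
tube `j` is passed after a time about `m`. -/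
structure Ent (e : Env) (H : ℝ → ℝ) (m j : ℕ) (F : Fam) (a b : ℝ) (T n : ℕ) (ε C : ℝ) : Prop where
  le : a ≤ b
  ctl : Ctl e F n ε a b T (T + 2 * m)
  ya : F.Y a T = H (-m - tau j - ss (e.l * e.c) j / (2 * (e.l * e.c)))
  yb : F.Y b T = H (-m - tau j + ss (e.l * e.c) j / (2 * (e.l * e.c)))
  yy : ∀ s ∈ Icc a b, F.Y a T ≤ F.Y s T ∧ F.Y s T ≤ F.Y b T
  zz : ∀ s ∈ Icc a b, |F.w s T - e.l * F.Y s T| ≤ C * ε

/-- the curves stay close to the homoclinic solution and pass through the tube `j` -/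
structure Thr (e : Env) (H : ℝ → ℝ) (m j : ℕ) (F : Fam) (a b : ℝ) (T : ℕ) (C : ℝ) : Prop where
  near : ∀ s ∈ Icc a b, ∀ t ∈ Icc (T : ℝ) (T + 2 * m),
    |F.Y s t - H (t - T - m - tau j)| ≤ C * ss (e.l * e.c) j ∧
    |F.w s t - e.l * e.k (F.Y s t)| ≤ C * (ee j * ss (e.l * e.c) j)
  tube : ∀ s ∈ Icc a b, ∀ t ∈ Icc (T : ℝ) (T + 2 * m), |F.Y s t - 1 / 2| ≤ 1 / 4 →
    |eta (e.l * e.c) j (F.Y s t) (t - T - m)| ≤ ss (e.l * e.c) j

/-- the environment of the control potential `S` and the kick potential `K` -/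
noncomputable def mkEnv (st : Sta) (ν : ℕ → ℕ) (b : ℝ) (S K : E 1 → ℝ) : Env where
  toSta := st
  ν := ν
  Kx := fun x y t => dX 0 K (pt (x + b * y) y t)
  Ky := fun x y t => dX 1 S (pt (x + b * y) y t) +
    (dX 1 K (pt (x + b * y) y t) + b * dX 0 K (pt (x + b * y) y t))
  Kz := fun x y t => dX 1 K (pt (x + b * y) y t) + b * dX 0 K (pt (x + b * y) y t)

/-- a good path at the integer time `T`, in the block `i`; `J₀` is the minimum of the adiabatic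
invariant along the path -/
structure Good (e : Env) (F : Fam) (P : ℝ → ℝ → ℝ → Prop) (r₀ K₀ R : ℝ) (i : ℕ) (a b : ℝ) (T : ℕ)
    (J₀ : ℝ) : Prop where
  box : Box e F a b T R r₀ (K₀ / ee (3 * i))
  ja : ∃ s ∈ Icc a b, F.J s T = J₀
  jm : ∀ s ∈ Icc a b, J₀ ≤ F.J s T
  lo : (2 : ℝ) ^ i ≤ J₀
  hi : J₀ < (2 : ℝ) ^ (i + 1) + 1
  vel : ∀ s ∈ Icc a b, P ((2 : ℝ) ^ i - 3) s T

/-- a path at the end of the block `i` -/
structure Out (e : Env) (F : Fam) (P : ℝ → ℝ → ℝ → Prop) (r₀ K₀ R : ℝ) (i : ℕ) (a b : ℝ) (T : ℕ)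
    (J₀ : ℝ) : Prop where
  box : Box e F a b T R (3 / 4 * r₀) (K₀ / (2 * ee (3 * i)))
  ja : ∃ s ∈ Icc a b, F.J s T = J₀
  jm : ∀ s ∈ Icc a b, J₀ ≤ F.J s T
  lo : (2 : ℝ) ^ (i + 1) + 1 ≤ J₀
  hi : J₀ < (2 : ℝ) ^ (i + 1) + 4
  vel : ∀ s ∈ Icc a b, P ((2 : ℝ) ^ (i + 1) - 3) s T

end Pool.Agent.Helper69.EL
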