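import Pool.Agent.Helper69.EL.LoopL
import Pool.Agent.Helper69.EK.Num

set_option autoImplicit false

/-!
# One cycle: the numerical conditions
-/

namespace Pool.Agent.Helper69.EL

open Set Filter Topology Pool.Agent.Helper6K9.ES
open Pool.Agent.Helper6K9.EH (Prof Fam eX eY dst pt Tr mkFam Pv Shf S_PROF S_FLOW)
open Pool.Agent.Helper69.EK (MM tau ss ee dd qq hf eta Shp Smk NearId)
open scoped ContDiff

namespace NumL

open LoopL

open Pool.Agent.Helper69.EK.NumL (xx EE yy xx_ge EE_ge sq_pos sq_sq sq_le ev_y mono3 eej ddj ssj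
  three n1 n2 n3 n4 n5 n6 n7)

theorem rr_eq (i : ℕ) : rr i = Pool.Agent.Helper69.EK.NumL.sq i := rfl

theorem n8 {l r a : ℝ} (hl : 0 < l) (h : a < r / (4 * l)) (hr : 0 < r) :
    0 < 3 / 4 * r - 2 * l * a := by
  rw [lt_div_iff₀ (by positivity)] at h
  linarith

theorem num : S_NUM := by
  intro e j₀ H he hH m n' hn' C₁ r₀ r₁ C₃ C₇ c₇ C₈ c₈ c₉ V₀ C ε₀ hC hC1 hC3 hC7 hC8 hc7 hc8 hc9
    hr0 hr1 hε0 hm1 hm2
  obtain ⟨κ, rfl⟩ : ∃ κ, n' = κ + 3 := ⟨n' - 3, by omega⟩
  clear hn'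
  have hl := he.hl
  have hu : 0 < e.l * e.c := mul_pos hl he.prof.cpos
  set u := e.l * e.c with hudef
  have hdel : 0 < H (m - 1) - 7 / 8 := by linarith
  have hdel2 : 0 < 3 / 4 * r₀ - 2 * e.l * (1 - H (m - 1)) := by
    have h1 : 1 - H (m - 1) < r₀ / (4 * e.l) := by linarith
    exact n8 hl h1 hr0
  have hV₀ : ∀ᶠ i : ℕ in atTop, V₀ ≤ (2 : ℝ) ^ i - 3 := by
    have h1 : Tendsto (fun i : ℕ => (2 : ℝ) ^ i - 3) atTop atTop := by
      refine tendsto_atTop_add_const_right _ _ ?_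
      exact tendsto_pow_atTop_atTop_of_one_lt (by norm_num)
    exact h1.eventually (eventually_ge_atTop V₀)
  have hxinv : ∀ A c : ℝ, 0 < c → ∀ᶠ i : ℕ in atTop, A * (1 / xx i ^ 2) ≤ c := by
    intro A c hc
    have hx : Tendsto xx atTop atTop := by
      unfold xx
      exact tendsto_atTop_add_const_right _ _ tendsto_natCast_atTop_atTop
    have h1 : Tendsto (fun i : ℕ => A * (1 / xx i ^ 2)) atTop (𝓝 (A * 0)) := by
      refine Tendsto.const_mul A ?_
      simp only [one_div]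
      refine tendsto_inv_atTop_zero.comp ?_
      exact (tendsto_pow_atTop (by norm_num)).comp hx
    rw [mul_zero] at h1
    exact (h1.eventually (gt_mem_nhds hc)).mono fun j hj => le_of_lt hj
  set D : ℝ := C₃ * C₃ * (2 * C) ^ (κ + 3) with hD
  have hD0 : 0 < D := by positivity
  set B : ℝ := 8 * C₈ * C₁ * C with hB
  have hB0 : 0 < B := by positivity
  filter_upwards [eventually_ge_atTop 4, hV₀,
    ev_y D (c := 1 / 4) (by norm_num),
    ev_y (D * 512 ^ (κ + 1)) (c := c₉ / 2) (by positivity),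
    ev_y B (c := 1 / 4) (by norm_num),
    ev_y (C₃ * (√(2 * C) * (2 * C₈) + 2 * C)) (c := 1 / 2) (by norm_num),
    ev_y (16 * (C₃ * (√(2 * C) * (2 * C₈) + 2 * C))) hc8,
    ev_y (C₃ * (2 * C)) (c := r₁ / 2) (by positivity),
    ev_y (4 / e.l * B + C₃ * B + (m + 1) * (B + D) + C₃ * C₃ * (2 * C)) (c := 1 / 96) (by norm_num),
    ev_y 64 (c := c₇ * u) (by positivity),
    ev_y (C₁ * (2 * C)) (c := 1) (by norm_num),
    ev_y (4 * C₈) (c := 1 / 4) (by norm_num),
    hxinv (C₇ * (u / 64)) ((H (m - 1) - 7 / 8) / 2) (by positivity),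
    hxinv (C₇ * (u / 64)) (1 / 8) (by norm_num),
    hxinv (2 * e.l * (C₇ * (u / 64)) + C₇ * (u / 64)) (3 / 4 * r₀ - 2 * e.l * (1 - H (m - 1))) hdel2,
    ev_y (2 * C) hε0,
    ev_y (C + 4 * C₈ * C) hε0] with i h4 hV e1 e2 e3 e4 e5 e6 e7 e8 e8' e8'' e9 e10 e11 e12 e13
  have hx := xx_ge i
  have hE := EE_ge i
  have hs0 := sq_pos i
  have hs1 := sq_le i
  have hss := sq_sq i
  have h16 : (16 : ℝ) ≤ 2 ^ i := by
    calc (16 : ℝ) = 2 ^ 4 := by norm_num
      _ ≤ 2 ^ i := pow_le_pow_right₀ (by norm_num) h4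
  have hVp : 0 < (2 : ℝ) ^ i - 3 := by linarith
  have h2i : (0 : ℝ) < 2 ^ i := by positivity
  have hsqi : Pool.Agent.Helper69.EK.NumL.sq i ^ 2 * 2 ^ i = 1 := by rw [hss]; field_simp
  set x := xx i with hxdef
  set E := EE i with hEdef
  set s := Pool.Agent.Helper69.EK.NumL.sq i with hsdef
  set y := yy i with hydef
  set ε := C / ((2 : ℝ) ^ i - 3) with hεdef
  have hE0 : 0 < E := by linarith
  have hx0 : 0 < x := by linarith
  have hεp : 0 < ε := by positivity
  have hε1 : ε ≤ 2 * C * s ^ 2 := by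
    rw [hεdef, div_le_iff₀ hVp]
    have h1 : (2 : ℝ) ^ i ≤ 2 * ((2 : ℝ) ^ i - 3) := by linarith
    calc C = C * (s ^ 2 * 2 ^ i) := by rw [hsqi, mul_one]
      _ ≤ C * (s ^ 2 * (2 * ((2 : ℝ) ^ i - 3))) := by gcongr
      _ = 2 * C * s ^ 2 * ((2 : ℝ) ^ i - 3) := by ring
  have hεs : ε ≤ 2 * C * s := hε1.trans (by
    have : s ^ 2 ≤ s := n1 hs0.le hs1
    gcongr)
  have hM : ∀ a b c : ℕ, a ≤ 2 → b ≤ 2 → 1 ≤ c → x ^ a * E ^ b * s ^ c ≤ y :=
    fun a b c ha hb hc => mono3 i a b c ha hb hc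
  have hεy : ε ≤ 2 * C * y := by
    refine hε1.trans ?_
    have := hM 0 0 2 (by norm_num) (by norm_num) (by norm_num)
    rw [pow_zero, pow_zero, one_mul, one_mul] at this
    gcongr
  have heeI : ee (3 * i) = 1 / E := eej (three i)
  have h2E : 2 * C₈ / ee (3 * i) = 2 * C₈ * E := by rw [heeI]; field_simp
  have hEε : 2 * C₈ * E * (2 * (C₁ * ε)) ≤ B * (E * s ^ 2) := by
    calc 2 * C₈ * E * (2 * (C₁ * ε)) ≤ 2 * C₈ * E * (2 * (C₁ * (2 * C * s ^ 2))) := by gcongr
      _ = B * (E * s ^ 2) := by rw [hB]; ring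
  have hEs : E * s ^ 2 ≤ y := by
    have := hM 0 1 2 (by norm_num) (by norm_num) (by norm_num)
    rwa [pow_zero, pow_one, one_mul] at this
  have hxEs : x * (E * s ^ 2) ≤ y := by
    have := hM 1 1 2 (by norm_num) (by norm_num) (by norm_num)
    rwa [pow_one, pow_one, mul_assoc] at this
  have heej : ∀ j, j / 3 = i → ee j = 1 / E := fun j hj => eej hj
  have hssj : ∀ j, j / 3 = i → ss u j = u / (64 * x ^ 2) := fun j hj => ssj hj
  have hddj : ∀ j, j / 3 = i → dd j = s ^ 2 / 512 := fun j hj => ddj hj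
  have hqqj : ∀ j, j / 3 = i → qq j = s ^ 2 := by
    intro j hj
    unfold qq
    rw [hj, hss]
  have hrr : rr i = s := rfl
  have hlog : Real.log (1 / ε) ≤ x := by
    have q1 : 1 / ε ≤ 2 ^ i := n5 hεdef hC h16
    have q2 := Real.log_le_log (by positivity) q1
    rw [Real.log_pow] at q2
    have q3 : Real.log 2 ≤ 1 := by
      have := Real.log_two_lt_d9
      linarith
    have q4 : (i : ℝ) * Real.log 2 ≤ (i : ℝ) * 1 := by gcongr
    have q5 : x = (i : ℝ) + 8 := rfl
    linarith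
  clear_value x E s y ε D B
  refine ⟨fun n hn => ?_, hεy.trans e12, ?_, ?_⟩
  · have hn0 : (0 : ℝ) ≤ n := Nat.cast_nonneg _
    have hnx : (n : ℝ) ≤ C₃ * x := hn.trans (mul_le_mul_of_nonneg_left hlog (by linarith))
    have hnε3 : C₃ * n * ε ^ (κ + 3) ≤ D * (x * (s ^ 2) ^ (κ + 3)) := by
      calc C₃ * n * ε ^ (κ + 3) ≤ C₃ * (C₃ * x) * (2 * C * s ^ 2) ^ (κ + 3) := by gcongr
        _ = D * (x * (s ^ 2) ^ (κ + 3)) := by rw [hD, mul_pow]; ring
    have hnε3y : C₃ * n * ε ^ (κ + 3) ≤ D * y := by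
      refine hnε3.trans ?_
      have := hM 1 0 (2 * (κ + 3)) (by norm_num) (by norm_num) (by omega)
      rw [pow_one, pow_zero, mul_one, pow_mul] at this
      gcongr
    have hnε : C₃ * n * ε ≤ C₃ * C₃ * (2 * C) * y := by
      have := hM 1 0 2 (by norm_num) (by norm_num) (by norm_num)
      rw [pow_one, pow_zero, mul_one] at this
      calc C₃ * n * ε ≤ C₃ * (C₃ * x) * (2 * C * s ^ 2) := by gcongr
        _ = C₃ * C₃ * (2 * C) * (x * s ^ 2) := by ring
        _ ≤ C₃ * C₃ * (2 * C) * y := by gcongr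
    have hsq : √ε ≤ √(2 * C) * s := by
      have h1 : √ε ≤ √(2 * C * s ^ 2) := Real.sqrt_le_sqrt hε1
      rw [Real.sqrt_mul (by positivity), Real.sqrt_sq hs0.le] at h1
      exact h1
    have hKn : C₃ * (√ε * (2 * C₈ * E) + ε) ≤ C₃ * (√(2 * C) * (2 * C₈) + 2 * C) * (E * s) := by
      have q1 : ε ≤ 2 * C * (E * s) := hεs.trans (by
        have : s ≤ E * s := n2 hs0.le hE
        gcongr)
      calc C₃ * (√ε * (2 * C₈ * E) + ε) ≤
          C₃ * ((√(2 * C) * s) * (2 * C₈ * E) + 2 * C * (E * s)) := by gcongr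
        _ = C₃ * (√(2 * C) * (2 * C₈) + 2 * C) * (E * s) := by ring
    have hEs1 : E * s ≤ y := by
      have := hM 0 1 1 (by norm_num) (by norm_num) (by norm_num)
      rwa [pow_zero, pow_one, pow_one, one_mul] at this
    have hEs2 : E * (E * s) ≤ y := by
      have := hM 0 2 1 (by norm_num) (by norm_num) (by norm_num)
      rwa [pow_zero, pow_one, one_mul, pow_two, mul_assoc] at this
    have hadj : ∀ j, j / 3 = i → ee j * dd j ^ (κ + 3 - 3) * dd j =
        (1 / E) * ((s ^ 2) ^ (κ + 1) / 512 ^ (κ + 1)) := by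
      intro j hj
      rw [Nat.add_sub_cancel, heej j hj, hddj j hj, mul_assoc, ← pow_succ, div_pow]
    refine ⟨hεp, h4, hV, hnε3y.trans e1, ?_, ?_, ?_, ?_, ?_, ?_, ?_, ?_, ?_, ?_, ?_, ?_, ?_, ?_⟩
    · -- n1
      intro j hj
      rw [hadj j hj]
      refine hnε3.trans ?_
      have q1 : D * 512 ^ (κ + 1) * (x * E * s ^ 4) ≤ c₉ / 2 := by
        refine le_trans ?_ e2
        have := hM 1 1 4 (by norm_num) (by norm_num) (by norm_num)
        rw [pow_one, pow_one] at this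
        gcongr
      have q2 : D * (x * (s ^ 2) ^ (κ + 3)) =
          (D * 512 ^ (κ + 1) * (x * E * s ^ 4)) *
            ((1 / E) * ((s ^ 2) ^ (κ + 1) / 512 ^ (κ + 1))) := by
        field_simp
        ring
      rw [q2]
      exact mul_le_mul_of_nonneg_right q1 (by positivity)
    · -- n2
      rw [h2E]
      refine hEε.trans (le_trans ?_ e3)
      gcongr
    · -- n2'
      rw [h2E, hrr]
      calc 2 * C₈ * E * (2 * s) = 4 * C₈ * (E * s) := by ring
        _ ≤ 4 * C₈ * y := by gcongr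
        _ ≤ 1 / 4 := e8''
    · -- n3
      rw [h2E]
      refine hKn.trans (le_trans ?_ e4)
      gcongr
    · -- n3'
      intro j hj
      rw [h2E, heej j hj, mul_one_div, le_div_iff₀ hE0]
      calc 16 * (C₃ * (√ε * (2 * C₈ * E) + ε)) * E
          ≤ 16 * (C₃ * (√(2 * C) * (2 * C₈) + 2 * C) * (E * s)) * E := by gcongr
        _ = 16 * (C₃ * (√(2 * C) * (2 * C₈) + 2 * C)) * (E * (E * s)) := by ring
        _ ≤ 16 * (C₃ * (√(2 * C) * (2 * C₈) + 2 * C)) * y := by gcongr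
        _ ≤ c₈ := e5
    · -- n4
      calc C₃ * ε ≤ C₃ * (2 * C * y) := by gcongr
        _ = C₃ * (2 * C) * y := by ring
        _ ≤ r₁ / 2 := e6
    · -- n5
      intro j hj
      have hj1 : 1 ≤ j := by omega
      refine ⟨?_, tau_pos hj1, by linarith [tau_le8 j], ss_pos hu hj1, ee_pos hj1⟩
      rw [hssj j hj]
      exact n4 hu hx
    · -- n6
      rw [h2E]
      have t1 : 4 / e.l * (2 * C₈ * E * (2 * (C₁ * ε))) ≤ 4 / e.l * B * y := by
        calc _ ≤ 4 / e.l * (B * y) := by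
              have : 2 * C₈ * E * (2 * (C₁ * ε)) ≤ B * y := hEε.trans (by gcongr)
              gcongr
          _ = _ := by ring
      have t2 : n * (2 * C₈ * E * (2 * (C₁ * ε))) ≤ C₃ * B * y := by
        calc _ ≤ (C₃ * x) * (B * (E * s ^ 2)) := by gcongr
          _ = C₃ * B * (x * (E * s ^ 2)) := by ring
          _ ≤ C₃ * B * y := by gcongr
      have t3 : (m + 1) * (2 * C₈ * E * (2 * (C₁ * ε)) + C₃ * n * ε ^ (κ + 3)) ≤
          (m + 1) * (B + D) * y := by
        have q1 : 2 * C₈ * E * (2 * (C₁ * ε)) ≤ B * y := hEε.trans (by gcongr)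
        calc _ ≤ (m + 1) * (B * y + D * y) := by gcongr
          _ = _ := by ring
      calc _ ≤ 4 / e.l * B * y + C₃ * B * y + (m + 1) * (B + D) * y + C₃ * C₃ * (2 * C) * y :=
            add_le_add (add_le_add (add_le_add t1 t2) t3) hnε
        _ = (4 / e.l * B + C₃ * B + (m + 1) * (B + D) + C₃ * C₃ * (2 * C)) * y := by ring
        _ ≤ 1 / 96 := e7
    · -- n7
      rw [hrr]
      have q0 : s ≤ y := by
        have := hM 0 0 1 (by norm_num) (by norm_num) (by norm_num)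
        rwa [pow_zero, pow_zero, pow_one, one_mul, one_mul] at this
      calc C₁ * ε ≤ C₁ * (2 * C * s ^ 2) := by gcongr
        _ = (C₁ * (2 * C) * s) * s := by ring
        _ ≤ (C₁ * (2 * C) * y) * s := by gcongr
        _ ≤ 1 * s := by gcongr
        _ = s := one_mul s
    · -- n7'
      intro j hj
      rw [heej j hj, hssj j hj, hrr]
      have q1 : x ^ 2 * E * s ≤ y := by
        have := hM 2 1 1 (by norm_num) (by norm_num) (by norm_num)
        rwa [pow_one, pow_one] at this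
      have q2 : c₇ * (1 / E * (u / (64 * x ^ 2))) = c₇ * u / (64 * x ^ 2 * E) := by field_simp
      rw [q2, le_div_iff₀ (by positivity)]
      calc s * (64 * x ^ 2 * E) = 64 * (x ^ 2 * E * s) := by ring
        _ ≤ 64 * y := by gcongr
        _ ≤ c₇ * u := e8
    · -- n8
      intro j hj
      rw [heej j hj, hssj j hj]
      have q1 : C₇ * (u / (64 * x ^ 2)) = C₇ * (u / 64) * (1 / x ^ 2) := by field_simp
      rw [q1]
      refine ⟨by linarith, e10, ?_⟩
      have q2 : C₇ * (1 / E * (u / (64 * x ^ 2))) ≤ C₇ * (u / 64) * (1 / x ^ 2) := by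
        rw [← q1]
        have : 1 / E ≤ 1 := by rw [div_le_one hE0]; exact hE
        have h9 : 1 / E * (u / (64 * x ^ 2)) ≤ 1 * (u / (64 * x ^ 2)) := by gcongr
        rw [one_mul] at h9
        gcongr
      have q3 : (2 * e.l * (C₇ * (u / 64)) + C₇ * (u / 64)) * (1 / x ^ 2) =
        2 * e.l * (C₇ * (u / 64) * (1 / x ^ 2)) + C₇ * (u / 64) * (1 / x ^ 2) := by ring
      linarith
    · -- n9
      intro j hj
      rw [heej j hj, heeI]
      field_simp
    · -- n10
      rw [heeI]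
      positivity
    · -- n11
      intro j hj
      rw [hadj j hj]
      positivity
  · rw [h2E]
    refine le_trans ?_ e13
    have q1 : 1 / 2 * ε ≤ C * y := by linarith
    have q2 : 2 * C₈ * E * ε ≤ 4 * C₈ * C * y := by
      calc 2 * C₈ * E * ε ≤ 2 * C₈ * E * (2 * C * s ^ 2) := by gcongr
        _ = 4 * C₈ * C * (E * s ^ 2) := by ring
        _ ≤ 4 * C₈ * C * y := by gcongr
    linarith
  · intro j hj
    rw [hqqj j hj]
    exact hε1.trans (n7 hC (by positivity))

end NumL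

theorem num : S_NUM := NumL.num

end Pool.Agent.Helper69.EL
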