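import Pool.Agent.Helper69.EL.Stm
import Pool.Agent.Helper56.EK.Unit

set_option autoImplicit false

/-!
# Smooth potentials, orbits which escape to infinity: one unit of time in the box
-/

namespace Pool.Agent.Helper69.EL.UnitL

open Set Filter Topology Pool.Agent.Helper6K9.ES
open Pool.Agent.Helper6K9.EH (Prof Fam eX eY dst pt Tr mkFam Pv Shf S_PROF S_FLOW)
open Pool.Agent.Helper69.EK.UnitL (path_cut mv1 lin1 gro stay comp4 two arith kk1)
open scoped ContDiff

/-- the equations in the box -/
structure Lin (e : Env) (F : Fam) (n : ℕ) (ε a b T : ℝ) : Prop where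
  hX : ∀ s ∈ Icc a b, ∀ t ∈ Icc T (T + 1), HasDerivAt (F.X s) (F.J s t + eX F s t) t
  hJ : ∀ s ∈ Icc a b, ∀ t ∈ Icc T (T + 1), HasDerivAt (F.J s) (eJ e F s t) t
  hY : ∀ s ∈ Icc a b, ∀ t ∈ Icc T (T + 1), HasDerivAt (F.Y s) (F.w s t + eY F s t) t
  hw : ∀ s ∈ Icc a b, ∀ t ∈ Icc T (T + 1),
    HasDerivAt (F.w s) (e.l ^ 2 * F.Y s t + ew e F s t) t
  bJ : ∀ s ∈ Icc a b, ∀ t ∈ Icc T (T + 1), |eJ e F s t| ≤ ε ^ n
  w1 : ∀ s ∈ Icc a b, ∀ t ∈ Icc T (T + 1), |F.w s t| ≤ 1

lemma lin_of {e : Env} {j₀ : ℕ} (he : EnvOK e j₀) {F : Fam} {n : ℕ} {ε a b T : ℝ} (hε : 0 < ε)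
    (hε1 : ε ≤ 1 / 200) (hctl : Ctl e F n ε a b T (T + 1))
    (hT : ∀ s ∈ Icc a b, |F.Y s T| ≤ 1 / 64 ∧ |F.w s T| ≤ 1 / 64) : Lin e F n ε a b T := by
  have hvan : ∀ s t, |F.Y s t| < 1 / 8 → e.Kx (F.X s t) (F.Y s t) t = 0 ∧
      e.Ky (F.X s t) (F.Y s t) t = 0 ∧ e.Kz (F.X s t) (F.Y s t) t = 0 :=
    fun s t h => he.van _ _ _ (Or.inl (by linarith))
  have hX : ∀ s ∈ Icc a b, ∀ t ∈ Icc T (T + 1), HasDerivAt (F.X s) (F.J s t + eX F s t) t := by
    intro s hs t ht
    have h := (hctl.dif s hs t ht).1.hasDerivAt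
    have h2 : F.J s t + eX F s t = deriv (F.X s) t := by unfold eX; ring
    rwa [h2]
  have hY : ∀ s ∈ Icc a b, ∀ t ∈ Icc T (T + 1), HasDerivAt (F.Y s) (F.w s t + eY F s t) t := by
    intro s hs t ht
    have h := (hctl.dif s hs t ht).2.2.1.hasDerivAt
    have h2 : F.w s t + eY F s t = deriv (F.Y s) t := by unfold eY; ring
    rwa [h2]
  have hst : ∀ s ∈ Icc a b, ∀ t ∈ Icc T (T + 1), |F.Y s t| < 1 / 8 ∧ |F.w s t| ≤ 1 := by
    intro s hs
    refine stay (Y := F.Y s) (w := F.w s) (g := eY F s) (h := deriv (F.w s)) he.hl he.hl1 hε hε1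
      (hY s hs) (fun t ht => (hctl.dif s hs t ht).2.2.2.hasDerivAt)
      (fun t ht => (hctl.bd s hs t ht).2.1) (fun t ht hlt => ?_) (hT s hs).1 (hT s hs).2
    have h1 := (hctl.bd s hs t ht).2.2.1
    unfold ew at h1
    rw [(kk1 he.prof hlt).1, (kk1 he.prof hlt).2, (hvan s t hlt).2.1] at h1
    simpa using h1
  refine ⟨hX, fun s hs t ht => ?_, hY, fun s hs t ht => ?_, fun s hs t ht => ?_,
    fun s hs t ht => (hst s hs t ht).2⟩
  · have h := (hctl.dif s hs t ht).2.1.hasDerivAt
    have h2 : eJ e F s t = deriv (F.J s) t := by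
      unfold eJ
      rw [(hvan s t (hst s hs t ht).1).1]
      ring
    rwa [h2]
  · have h := (hctl.dif s hs t ht).2.2.2.hasDerivAt
    have h2 : e.l ^ 2 * F.Y s t + ew e F s t = deriv (F.w s) t := by
      unfold ew
      have hlt := (hst s hs t ht).1
      rw [(kk1 he.prof hlt).1, (kk1 he.prof hlt).2, (hvan s t hlt).2.1]
      ring
    rwa [h2]
  · have h1 := (hctl.bd s hs t ht).2.2.2
    rw [(hvan s t (hst s hs t ht).1).1, (hvan s t (hst s hs t ht).1).2.2] at h1
    simpa using h1

lemma dxi {e : Env} {F : Fam} {n : ℕ} {ε a b T : ℝ} (hL : Lin e F n ε a b T) {s : ℝ} (hs : s ∈ Icc a b)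
    {t : ℝ} (ht : t ∈ Icc T (T + 1)) : HasDerivAt (fun t => xi e F s t)
      (e.l * xi e F s t + (ew e F s t + e.l * eY F s t)) t := by
  have h := (hL.hw s hs t ht).add ((hL.hY s hs t ht).const_mul e.l)
  convert! h using 1
  unfold xi
  ring

lemma dze {e : Env} {F : Fam} {n : ℕ} {ε a b T : ℝ} (hL : Lin e F n ε a b T) {s : ℝ} (hs : s ∈ Icc a b)
    {t : ℝ} (ht : t ∈ Icc T (T + 1)) : HasDerivAt (fun t => ze e F s t)
      (-e.l * ze e F s t + (ew e F s t - e.l * eY F s t)) t := by
  have h := (hL.hw s hs t ht).sub ((hL.hY s hs t ht).const_mul e.l)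
  convert! h using 1
  unfold ze
  ring

/-- differences of two orbits -/
lemma diff {e : Env} {F : Fam} {n : ℕ} {ε a b T : ℝ} (hl : 0 < e.l) (hl1 : e.l ≤ 1 / 2) (hε : 0 < ε)
    (hε1 : ε ≤ 1 / 200) (hctl : Ctl e F n ε a b T (T + 1)) (hL : Lin e F n ε a b T) {s s' : ℝ}
    (hs : s ∈ Icc a b) (hs' : s' ∈ Icc a b) :
    |(xi e F s (T + 1) - xi e F s' (T + 1)) - Real.exp e.l * (xi e F s T - xi e F s' T)| ≤
        192 * (ε * dst F s s' T) ∧
    |(ze e F s (T + 1) - ze e F s' (T + 1)) - Real.exp (-e.l) * (ze e F s T - ze e F s' T)| ≤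
        192 * (ε * dst F s s' T) ∧
    |(F.J s (T + 1) - F.J s' (T + 1)) - (F.J s T - F.J s' T)| ≤ 32 * (ε * dst F s s' T) ∧
    |(F.X s (T + 1) - F.X s' (T + 1)) - (F.X s T - F.X s' T) - (F.J s T - F.J s' T)| ≤
        64 * (ε * dst F s s' T) := by
  have hD : ∀ t ∈ Icc T (T + 1), dst F s s' t ≤ 32 * dst F s s' T := by
    intro t ht
    have h := two (x := fun t => F.X s t - F.X s' t) (j := fun t => F.J s t - F.J s' t)
      (y := fun t => F.Y s t - F.Y s' t) (w := fun t => F.w s t - F.w s' t)
      (gx := fun t => eX F s t - eX F s' t) (gj := fun t => eJ e F s t - eJ e F s' t)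
      (gy := fun t => eY F s t - eY F s' t) (gw := fun t => ew e F s t - ew e F s' t)
      hl hl1 hε hε1
      (fun t ht => by
        have := (hL.hX s hs t ht).sub (hL.hX s' hs' t ht)
        convert! this using 1
        ring)
      (fun t ht => (hL.hJ s hs t ht).sub (hL.hJ s' hs' t ht))
      (fun t ht => by
        have := (hL.hY s hs t ht).sub (hL.hY s' hs' t ht)
        convert! this using 1
        ring)
      (fun t ht => by
        have := (hL.hw s hs t ht).sub (hL.hw s' hs' t ht)
        convert! this using 1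
        ring)
      (fun t ht => by
        obtain ⟨a1, a2, a3, a4⟩ := hctl.lip s hs s' hs' t ht
        exact ⟨a1, a4, a2, a3⟩) t ht
    exact h
  have hD0 : 0 ≤ dst F s s' T := by unfold dst; positivity
  have hlip : ∀ t ∈ Icc T (T + 1), |eX F s t - eX F s' t| ≤ 32 * (ε * dst F s s' T) ∧
      |eY F s t - eY F s' t| ≤ 32 * (ε * dst F s s' T) ∧
      |ew e F s t - ew e F s' t| ≤ 32 * (ε * dst F s s' T) ∧
      |eJ e F s t - eJ e F s' t| ≤ 32 * (ε * dst F s s' T) := by
    intro t ht
    obtain ⟨a1, a2, a3, a4⟩ := hctl.lip s hs s' hs' t ht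
    have h1 := mul_le_mul_of_nonneg_left (hD t ht) hε.le
    exact ⟨by linarith, by linarith, by linarith, by linarith⟩
  have hl' : |e.l| ≤ 1 / 2 := by rwa [abs_of_pos hl]
  have hl'' : |-e.l| ≤ 1 / 2 := by rwa [abs_neg]
  have hJ : ∀ t ∈ Icc T (T + 1), |(F.J s t - F.J s' t) - (F.J s T - F.J s' T)| ≤
      32 * (ε * dst F s s' T) :=
    mv1 (f := fun t => F.J s t - F.J s' t) (f' := fun t => eJ e F s t - eJ e F s' t)
      (fun t ht => (hL.hJ s hs t ht).sub (hL.hJ s' hs' t ht)) fun t ht => (hlip t ht).2.2.2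
  refine ⟨?_, ?_, hJ (T + 1) (right_mem_Icc.2 (by linarith)), ?_⟩
  · have h := lin1 (u := fun t => xi e F s t - xi e F s' t)
      (g := fun t => (ew e F s t + e.l * eY F s t) - (ew e F s' t + e.l * eY F s' t))
      (lam := e.l) (T := T) (δ := 64 * (ε * dst F s s' T)) hl' (fun t ht => by
        have := (dxi hL hs ht).sub (dxi hL hs' ht)
        convert! this using 1
        ring) (fun t ht => by
        obtain ⟨-, a2, a3, -⟩ := hlip t ht
        have h1 : (ew e F s t + e.l * eY F s t) - (ew e F s' t + e.l * eY F s' t) =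
          (ew e F s t - ew e F s' t) + e.l * (eY F s t - eY F s' t) := by ring
        have h2 := abs_add_le (ew e F s t - ew e F s' t) (e.l * (eY F s t - eY F s' t))
        rw [abs_mul, abs_of_pos hl] at h2
        show |(ew e F s t + e.l * eY F s t) - (ew e F s' t + e.l * eY F s' t)| ≤ _
        rw [h1]
        have h3 : e.l * |eY F s t - eY F s' t| ≤ 1 * (32 * (ε * dst F s s' T)) :=
          mul_le_mul (by linarith) a2 (abs_nonneg _) (by norm_num)
        linarith)
    calc _ ≤ 3 * (64 * (ε * dst F s s' T)) := h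
      _ = _ := by ring
  · have h := lin1 (u := fun t => ze e F s t - ze e F s' t)
      (g := fun t => (ew e F s t - e.l * eY F s t) - (ew e F s' t - e.l * eY F s' t))
      (lam := -e.l) (T := T) (δ := 64 * (ε * dst F s s' T)) hl'' (fun t ht => by
        have := (dze hL hs ht).sub (dze hL hs' ht)
        convert! this using 1
        ring) (fun t ht => by
        obtain ⟨-, a2, a3, -⟩ := hlip t ht
        have h1 : (ew e F s t - e.l * eY F s t) - (ew e F s' t - e.l * eY F s' t) =
          (ew e F s t - ew e F s' t) - e.l * (eY F s t - eY F s' t) := by ring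
        have h2 := abs_sub (ew e F s t - ew e F s' t) (e.l * (eY F s t - eY F s' t))
        rw [abs_mul, abs_of_pos hl] at h2
        show |(ew e F s t - e.l * eY F s t) - (ew e F s' t - e.l * eY F s' t)| ≤ _
        rw [h1]
        have h3 : e.l * |eY F s t - eY F s' t| ≤ 1 * (32 * (ε * dst F s s' T)) :=
          mul_le_mul (by linarith) a2 (abs_nonneg _) (by norm_num)
        linarith)
    calc _ ≤ 3 * (64 * (ε * dst F s s' T)) := h
      _ = _ := by ring
  · have h := mv1 (f := fun t => (F.X s t - F.X s' t) - (t - T) * (F.J s T - F.J s' T))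
      (f' := fun t => (F.J s t - F.J s' t) - (F.J s T - F.J s' T) + (eX F s t - eX F s' t))
      (C := 64 * (ε * dst F s s' T)) (T := T) (fun t ht => by
        have h1 := (hL.hX s hs t ht).sub (hL.hX s' hs' t ht)
        have h2 := ((hasDerivAt_id t).sub_const T).mul_const (F.J s T - F.J s' T)
        have h3 := h1.sub h2
        convert! h3 using 1
        ring) (fun t ht => by
        have h1 := abs_add_le ((F.J s t - F.J s' t) - (F.J s T - F.J s' T))
          (eX F s t - eX F s' t)
        have h2 := hJ t ht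
        have h3 := (hlip t ht).1
        linarith) (T + 1) (right_mem_Icc.2 (by linarith))
    simp only [add_sub_cancel_left, one_mul, sub_self, zero_mul, sub_zero] at h
    calc _ = |(F.X s (T + 1) - F.X s' (T + 1)) - (F.J s T - F.J s' T) -
          (F.X s T - F.X s' T)| := by congr 1; ring
      _ ≤ _ := h

lemma dst_le {e : Env} {F : Fam} (hl : 0 < e.l) (hl1 : e.l ≤ 1 / 2) (s s' T : ℝ) :
    dst F s s' T ≤ 4 / e.l * (|xi e F s T - xi e F s' T| + (|ze e F s T - ze e F s' T| +
      e.l / 4 * |F.X s T - F.X s' T| + |F.J s T - F.J s' T|)) := by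
  rw [div_mul_eq_mul_div, le_div_iff₀ hl]
  unfold dst
  have h1 : F.w s T - F.w s' T = ((xi e F s T - xi e F s' T) + (ze e F s T - ze e F s' T)) / 2 := by
    unfold xi ze; ring
  have h2 : e.l * (F.Y s T - F.Y s' T) =
      ((xi e F s T - xi e F s' T) - (ze e F s T - ze e F s' T)) / 2 := by
    unfold xi ze; ring
  have h3 : |F.w s T - F.w s' T| ≤ (|xi e F s T - xi e F s' T| + |ze e F s T - ze e F s' T|) / 2 := by
    rw [h1, abs_div, abs_two]
    linarith [abs_add_le (xi e F s T - xi e F s' T) (ze e F s T - ze e F s' T)]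
  have h4 : e.l * |F.Y s T - F.Y s' T| ≤
      (|xi e F s T - xi e F s' T| + |ze e F s T - ze e F s' T|) / 2 := by
    have : e.l * |F.Y s T - F.Y s' T| = |e.l * (F.Y s T - F.Y s' T)| := by
      rw [abs_mul, abs_of_pos hl]
    rw [this, h2, abs_div, abs_two]
    linarith [abs_sub (xi e F s T - xi e F s' T) (ze e F s T - ze e F s' T)]
  have h5 := abs_nonneg (F.w s T - F.w s' T)
  have h6 := abs_nonneg (F.J s T - F.J s' T)
  have h7 := abs_nonneg (xi e F s T - xi e F s' T)
  have h8 := abs_nonneg (ze e F s T - ze e F s' T)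
  nlinarith

end Pool.Agent.Helper69.EL.UnitL

namespace Pool.Agent.Helper69.EL

open Set Filter Topology Pool.Agent.Helper6K9.ES
open Pool.Agent.Helper6K9.EH (Prof Fam eX eY dst pt Tr mkFam Pv Shf S_PROF S_FLOW)
open Pool.Agent.Helper69.EK.UnitL (path_cut mv1 lin1 gro stay comp4 two arith kk1)
open scoped ContDiff
open UnitL

theorem unit : S_UNIT := by
  intro st j₀ hst
  have hl := hst.hl
  have hl1 := hst.hl1
  refine ⟨st.l / 64, 12 / st.l, 2400 / st.l, st.l ^ 2 / 19200, by positivity, by linarith,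
    by linarith, ?_, ?_, by positivity, ?_⟩
  · rw [le_div_iff₀ hl]; linarith
  · rw [le_div_iff₀ hl]; linarith
  rintro e rfl he F n a b T ε R Z K hn hε hε0 hctl hR hRr hZ hK hKε hbox
  have hε1 : ε ≤ 1 / 200 := by nlinarith
  have hR0 : 0 < R := lt_of_lt_of_le (by positivity) hR
  have hT : ∀ s ∈ Icc a b, |F.Y s T| ≤ 1 / 64 ∧ |F.w s T| ≤ 1 / 64 := by
    intro s hs
    have h1 := abs_le.1 (hbox.bx s hs)
    have h2 := abs_le.1 (hbox.bz s hs)
    unfold xi at h1
    unfold ze at h2
    constructor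
    · have h3 : |e.l * F.Y s T| ≤ e.l / 64 := abs_le.2 ⟨by linarith, by linarith⟩
      rw [abs_mul, abs_of_pos hl] at h3
      have h4 : e.l * |F.Y s T| ≤ e.l * (1 / 64) := by linarith
      exact le_of_mul_le_mul_left h4 hl
    · exact abs_le.2 ⟨by linarith, by linarith⟩
  have hL := lin_of he hε hε1 hctl hT
  have hmem : T + 1 ∈ Icc T (T + 1) := right_mem_Icc.2 (by linarith)
  have hJt : ∀ s ∈ Icc a b, ∀ t ∈ Icc T (T + 1), |F.J s t - F.J s T| ≤ ε ^ n := fun s hs =>
    mv1 (fun t ht => hL.hJ s hs t ht) fun t ht => hL.bJ s hs t ht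
  have hε3 : 0 < ε ^ n := by positivity
  have hC1 : 1 ≤ 2400 / e.l := by rw [le_div_iff₀ hl]; linarith
  have hC2 : 6 ≤ 2400 / e.l := by rw [le_div_iff₀ hl]; linarith
  refine ⟨?_, fun s hs => ⟨?_, fun t ht => ⟨hL.w1 s hs t ht, ?_⟩⟩⟩
  · -- the new box
    have hxi : ∀ s ∈ Icc a b, |xi e F s (T + 1) - Real.exp e.l * xi e F s T| ≤ 6 * ε := by
      intro s hs
      have h := lin1 (u := fun t => xi e F s t) (g := fun t => ew e F s t + e.l * eY F s t)
        (lam := e.l) (T := T) (δ := 2 * ε) (by rwa [abs_of_pos hl]) (fun t ht => dxi hL hs ht)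
        (fun t ht => by
          obtain ⟨-, a2, a3, -⟩ := hctl.bd s hs t ht
          have h2 := abs_add_le (ew e F s t) (e.l * eY F s t)
          rw [abs_mul, abs_of_pos hl] at h2
          have h3 : e.l * |eY F s t| ≤ 1 * ε := mul_le_mul (by linarith) a2 (abs_nonneg _)
            (by norm_num)
          linarith)
      calc _ ≤ 3 * (2 * ε) := h
        _ = _ := by ring
    have hze : ∀ s ∈ Icc a b, |ze e F s (T + 1) - Real.exp (-e.l) * ze e F s T| ≤ 6 * ε := by
      intro s hs
      have h := lin1 (u := fun t => ze e F s t) (g := fun t => ew e F s t - e.l * eY F s t)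
        (lam := -e.l) (T := T) (δ := 2 * ε) (by rwa [abs_neg, abs_of_pos hl])
        (fun t ht => dze hL hs ht)
        (fun t ht => by
          obtain ⟨-, a2, a3, -⟩ := hctl.bd s hs t ht
          have h2 := abs_sub (ew e F s t) (e.l * eY F s t)
          rw [abs_mul, abs_of_pos hl] at h2
          have h3 : e.l * |eY F s t| ≤ 1 * ε := mul_le_mul (by linarith) a2 (abs_nonneg _)
            (by norm_num)
          linarith)
      calc _ ≤ 3 * (2 * ε) := h
        _ = _ := by ring
    have hexp : Real.exp (e.l / 2) * R ≤ Real.exp e.l * R - 6 * ε := by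
      have h1 : Real.exp e.l = Real.exp (e.l / 2) * Real.exp (e.l / 2) := by
        rw [← Real.exp_add]
        ring_nf
      have h2 := Real.add_one_le_exp (e.l / 2)
      have h3 : 12 * ε ≤ e.l * R := by
        rw [div_mul_eq_mul_div, div_le_iff₀ hl] at hR
        linarith
      have h4 : Real.exp (e.l / 2) * R * (e.l / 2) ≤
          Real.exp (e.l / 2) * R * (Real.exp (e.l / 2) - 1) := by
        apply mul_le_mul_of_nonneg_left (by linarith)
        positivity
      have h5 : R * (e.l / 2) ≤ Real.exp (e.l / 2) * (R * (e.l / 2)) := by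
        have : 0 ≤ R * (e.l / 2) := by positivity
        nlinarith
      rw [h1]
      nlinarith
    have hR' : 0 < Real.exp (e.l / 2) * R := by positivity
    have hcont : ContinuousOn (fun s => xi e F s (T + 1)) (Icc a b) := by
      obtain ⟨-, -, c3, c4⟩ := hctl.cts (T + 1) hmem
      exact c4.add (continuousOn_const.mul c3)
    obtain ⟨a', b', h1, h2, h3, h4, h5, h6⟩ := path_cut hbox.le hcont hR' (by
        have := abs_le.1 (hxi a (left_mem_Icc.2 hbox.le))
        rw [hbox.left] at this
        show xi e F a (T + 1) ≤ _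
        linarith [this.2]) (by
        have := abs_le.1 (hxi b (right_mem_Icc.2 hbox.le))
        rw [hbox.right] at this
        show _ ≤ xi e F b (T + 1)
        linarith [this.1])
    have hsub : ∀ s ∈ Icc a' b', s ∈ Icc a b := fun s hs => ⟨h1.trans hs.1, hs.2.trans h3⟩
    refine ⟨a', b', h1, h3, ⟨h2, h4, h5, h6, fun s hs => ?_, fun s hs s' hs' => ?_⟩⟩
    · have h7 := hze s (hsub s hs)
      have h8 := hbox.bz s (hsub s hs)
      have h9 : |ze e F s (T + 1)| ≤ |ze e F s (T + 1) - Real.exp (-e.l) * ze e F s T| +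
          |Real.exp (-e.l) * ze e F s T| := by
        have := abs_add_le (ze e F s (T + 1) - Real.exp (-e.l) * ze e F s T)
          (Real.exp (-e.l) * ze e F s T)
        rwa [sub_add_cancel] at this
      rw [abs_mul, abs_of_pos (Real.exp_pos _)] at h9
      have h10 := mul_le_mul_of_nonneg_left h8 (Real.exp_pos (-e.l)).le
      have h11 : 6 * ε ≤ 2400 / e.l * ε := mul_le_mul_of_nonneg_right hC2 hε.le
      linarith
    · obtain ⟨d1, d2, d3, d4⟩ := diff hl hl1 hε hε1 hctl hL (hsub s hs) (hsub s' hs')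
      have hcone := hbox.cone s (hsub s hs) s' (hsub s' hs')
      have hD := dst_le (F := F) hl hl1 s s' T
      set D := dst F s s' T with hDd
      set m := |ze e F s T - ze e F s' T| + e.l / 4 * |F.X s T - F.X s' T| +
        |F.J s T - F.J s' T| with hm
      set d := |xi e F s T - xi e F s' T| with hd
      have hd0 : 0 ≤ d := abs_nonneg _
      have hD2 : D ≤ 4 / e.l * ((1 + K) * d) := by
        refine hD.trans ?_
        apply mul_le_mul_of_nonneg_left _ (by positivity)
        linarith
      have hD0 : 0 ≤ D := by rw [hDd]; unfold dst; positivity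
      have hD3 : 300 * (ε * D) ≤ 1200 / e.l * (ε * (1 + K)) * d := by
        have := mul_le_mul_of_nonneg_left hD2 (show 0 ≤ 300 * ε by positivity)
        calc 300 * (ε * D) = 300 * ε * D := by ring
          _ ≤ _ := this
          _ = _ := by ring
      have hεD : 0 ≤ ε * D := by positivity
      have hab1 : Real.exp (-e.l) * Real.exp (e.l) = 1 := by
        rw [← Real.exp_add, neg_add_cancel, Real.exp_zero]
      refine arith (A := 1200 / e.l) (q := Real.exp e.l) (m := m) (d := d) (l := e.l) hl hl1 hε hK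
        (by positivity) (by ring) hd0 ?_ ?_ (Real.exp_pos _) ?_ ?_ ?_ hcone ?_ ?_
      · rw [div_mul_eq_mul_div, div_le_iff₀ hl]
        nlinarith
      · rw [div_mul_eq_mul_div, div_le_iff₀ hl]
        nlinarith
      · rw [← Real.exp_zero]
        apply Real.exp_le_exp.2
        linarith
      · rw [← Real.exp_zero]
        apply Real.exp_le_exp.2
        linarith
      · rw [← Real.exp_add]
        have := Real.add_one_le_exp (-e.l / 4 + e.l)
        linarith
      · have e1 : |ze e F s (T + 1) - ze e F s' (T + 1)| ≤ |ze e F s T - ze e F s' T| +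
            192 * (ε * D) := by
          have g1 := abs_add_le ((ze e F s (T + 1) - ze e F s' (T + 1)) -
            Real.exp (-e.l) * (ze e F s T - ze e F s' T))
            (Real.exp (-e.l) * (ze e F s T - ze e F s' T))
          rw [sub_add_cancel, abs_mul, abs_of_pos (Real.exp_pos _)] at g1
          have g2 : Real.exp (-e.l) ≤ 1 := by
            rw [← Real.exp_zero]
            apply Real.exp_le_exp.2
            linarith
          have g3 := mul_le_mul_of_nonneg_right g2 (abs_nonneg (ze e F s T - ze e F s' T))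
          linarith
        have e2 : |F.J s (T + 1) - F.J s' (T + 1)| ≤ |F.J s T - F.J s' T| + 32 * (ε * D) := by
          have g1 := abs_add_le ((F.J s (T + 1) - F.J s' (T + 1)) - (F.J s T - F.J s' T))
            (F.J s T - F.J s' T)
          rw [sub_add_cancel] at g1
          linarith
        have e3 : |F.X s (T + 1) - F.X s' (T + 1)| ≤ |F.X s T - F.X s' T| +
            |F.J s T - F.J s' T| + 64 * (ε * D) := by
          have g1 := abs_add_le ((F.X s (T + 1) - F.X s' (T + 1)) - (F.X s T - F.X s' T) -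
            (F.J s T - F.J s' T)) ((F.X s T - F.X s' T) + (F.J s T - F.J s' T))
          have g2 := abs_add_le (F.X s T - F.X s' T) (F.J s T - F.J s' T)
          have g3 : (F.X s (T + 1) - F.X s' (T + 1)) - (F.X s T - F.X s' T) -
            (F.J s T - F.J s' T) + ((F.X s T - F.X s' T) + (F.J s T - F.J s' T)) =
            F.X s (T + 1) - F.X s' (T + 1) := by ring
          rw [g3] at g1
          linarith
        have e4 := mul_le_mul_of_nonneg_left e3 (show 0 ≤ e.l / 4 by positivity)
        have e5 : 0 ≤ |ze e F s T - ze e F s' T| := abs_nonneg _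
        have e6 : 0 ≤ |F.X s T - F.X s' T| := abs_nonneg _
        have e7 : e.l / 4 * (64 * (ε * D)) ≤ 8 * (ε * D) := by nlinarith
        have e8 : 0 ≤ e.l / 4 * |ze e F s T - ze e F s' T| := by positivity
        have e9 : 0 ≤ e.l / 4 * (e.l / 4 * |F.X s T - F.X s' T|) := by positivity
        have e10 : (1 + e.l / 4) * m = m + e.l / 4 * |ze e F s T - ze e F s' T| +
          e.l / 4 * (e.l / 4 * |F.X s T - F.X s' T|) + e.l / 4 * |F.J s T - F.J s' T| := by
          rw [hm]; ring
        have e11 : e.l / 4 * (|F.X s T - F.X s' T| + |F.J s T - F.J s' T| + 64 * (ε * D)) =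
          e.l / 4 * |F.X s T - F.X s' T| + e.l / 4 * |F.J s T - F.J s' T| +
            e.l / 4 * (64 * (ε * D)) := by ring
        rw [e11] at e4
        linarith
      · have g1 := abs_sub_abs_le_abs_sub (Real.exp e.l * (xi e F s T - xi e F s' T))
          (xi e F s (T + 1) - xi e F s' (T + 1))
        have g2 := abs_sub_comm (Real.exp e.l * (xi e F s T - xi e F s' T))
          (xi e F s (T + 1) - xi e F s' (T + 1))
        rw [g2, abs_mul, abs_of_pos (Real.exp_pos e.l)] at g1
        have g3 : (Real.exp e.l - 1200 / e.l * (ε * (1 + K))) * d = Real.exp e.l * d -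
          1200 / e.l * (ε * (1 + K)) * d := by ring
        rw [g3]
        linarith
  · have h := mv1 (f := fun t => F.X s t - (t - T) * F.J s T)
      (f' := fun t => (F.J s t - F.J s T) + eX F s t) (C := 2 * ε) (T := T) (fun t ht => by
        have h1 := (hL.hX s hs t ht)
        have h2 := ((hasDerivAt_id t).sub_const T).mul_const (F.J s T)
        have h3 := h1.sub h2
        convert! h3 using 1
        ring) (fun t ht => by
        have h1 := abs_add_le (F.J s t - F.J s T) (eX F s t)
        have h2 := hJt s hs t ht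
        have h3 := (hctl.bd s hs t ht).1
        have h4 : ε ^ n ≤ ε := by
          have := pow_le_pow_of_le_one hε.le (show ε ≤ 1 by linarith) (show 1 ≤ n by omega)
          rwa [pow_one] at this
        linarith) (T + 1) hmem
    simp only [add_sub_cancel_left, one_mul, sub_self, zero_mul, sub_zero] at h
    have h1 : 2 * ε ≤ 2400 / e.l * ε := mul_le_mul_of_nonneg_right (by linarith) hε.le
    calc _ = |F.X s (T + 1) - F.J s T - F.X s T| := by congr 1; ring
      _ ≤ 2 * ε := h
      _ ≤ _ := h1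
  · have h := hJt s hs t ht
    have h1 : 1 * ε ^ n ≤ 2400 / e.l * ε ^ n :=
      mul_le_mul_of_nonneg_right hC1 hε3.le
    linarith

end Pool.Agent.Helper69.EL
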