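import Pool.Agent.Helper69.EL.Ct
import Pool.Agent.Helper69.EL.Red
import Pool.Agent.Helper69.EL.Num
import Pool.Agent.Helper69.EL.Hom
import Pool.Agent.Helper69.EL.Iter
import Pool.Agent.Helper69.EL.Unit
import Pool.Agent.Helper69.EL.Wait
import Pool.Agent.Helper36.EL.START
import Pool.Agent.Helper36.EL.ENV
import Pool.Agent.Helper36.EL.BND
import Pool.Agent.Helper36.EL.GLU
import Pool.Agent.Helper36.EL.POTA
import Pool.Agent.Helper32.EL.NU
import Pool.Agent.Helper32.EL.SWI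
import Pool.Agent.Helper53.EL.STEPA
import Pool.Agent.Helper54.EL.AVB
import Pool.Agent.Helper79.EL.LA
import Pool.Agent.Helper79.EL.LB
import Pool.Agent.Helper79.EL.LC
import Pool.Agent.Helper53.EK.SHA
import Pool.Agent.Helper53.EK.HAD
import Pool.Agent.Helper53.EK.AVL
import Pool.Agent.Helper36.EK.BND
import Pool.Agent.Helper36.EK.GLU
import Pool.Agent.Helper56.EK.Avg
import Pool.Agent.Helper32.EK.HJ
import Pool.Agent.Helper32.EK.INV
import Pool.Agent.Helper46.EK.AVA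
import Pool.Agent.Helper54.EK.MOL
import Pool.Graph.R_pool_sql_team_seeded_1e53cb71.Helper6K9.EH.Main2

set_option autoImplicit false

/-!
# The main theorem in dimension two, smooth potentials
-/

namespace Pool.Agent.Helper69.EL

open Set Filter Topology Pool.Agent.Helper6K9.ES
open scoped ContDiff

theorem fin : S_FIN :=
  red Pool.Agent.Helper69.EK.mol Pool.Agent.Helper69.EK.avg
    (ct Pool.Agent.Helper6K9.EH.prof hom
      (pota Pool.Agent.Helper69.EK.sha Pool.Agent.Helper69.EK.bnd Pool.Agent.Helper69.EK.glu bnd glu)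
      env (stepa num (wait unit) la lb lc) iter nu swi Pool.Agent.Helper6K9.EH.flow
      (avb (Pool.Agent.Helper69.EK.hj Pool.Agent.Helper69.EK.had) Pool.Agent.Helper69.EK.inv
        Pool.Agent.Helper69.EK.ava Pool.Agent.Helper69.EK.avl) start ops)

theorem main (κ : ℕ) (hκ : 2 ≤ κ) (A : Matrix (Fin (1 + 1)) (Fin (1 + 1)) ℝ) (hA : A.PosDef)
    (f₀ : E 1 → ℝ) (hf : ContDiff ℝ κ f₀) (hp : Per f₀) (ε : ℝ) (hε : 0 < ε) :
    ∃ f : E 1 → ℝ, ContDiff ℝ ∞ f ∧ Per f ∧
      (∀ (j : ℕ) (p : E 1), j ≤ κ → ‖iteratedFDeriv ℝ j (fun q => f q - f₀ q) p‖ ≤ ε) ∧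
      ∃ γ : ℝ → Q 1, ((∀ t, DifferentiableAt ℝ γ t) ∧ ∀ (t : ℝ) (i : Fin (1 + 1)),
        HasDerivAt (fun s => dv (lag A f) i (γ s) (deriv γ s) s)
          (dx (lag A f) i (γ t) (deriv γ t) t) t) ∧
        Tendsto (fun t => ‖deriv γ t‖) atTop atTop := by
  obtain ⟨f, γ, h1, h3, h4, h5⟩ := fin κ A f₀ ε hκ hε hA hf hp
  have hsym : A.IsSymm := by
    have := hA.isHermitian.eq
    rwa [Matrix.conjTranspose_eq_transpose_of_trivial] at this
  have h6 := orbit_of_sol A hsym f (h1.1.differentiable (by norm_num)) γ h4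
  refine ⟨f, h1.1, h1.2, fun j p hj => h3 j hj p, γ, h6, ?_⟩
  rw [tendsto_atTop]
  intro V
  filter_upwards [h5 V] with t ht
  obtain ⟨i, hi⟩ := ht
  have e1 : deriv γ t i = deriv (fun s => γ s i) t :=
    ((hasDerivAt_pi.1 (h6.1 t).hasDerivAt) i).deriv.symm
  rw [← e1] at hi
  exact hi.trans (norm_le_pi_norm (deriv γ t) i)

end Pool.Agent.Helper69.EL
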