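import Pool.Agent.Helper69.EL.Defs

set_option autoImplicit false

/-!
# Smooth potentials with orbits which escape to infinity on flat tori of dimension two: the
statements of the parts
-/

namespace Pool.Agent.Helper69.EL

open Set Filter Topology Pool.Agent.Helper6K9.ES
open Pool.Agent.Helper6K9.EH (Prof Fam eX eY dst pt Tr mkFam Pv Shf S_PROF S_FLOW)
open Pool.Agent.Helper69.EK (MM tau ss ee dd qq hf eta Shp Smk NearId Sh VS Rg S_SHA S_HJ S_INV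
  S_AVA S_AVL)
open scoped ContDiff

/-- [HOM] the homoclinic solution -/
def S_HOM : Prop := ∀ (st : Sta) (j₀ : ℕ), StaOK st j₀ → ∃ H : ℝ → ℝ, Hom st H

/-! ### The tube potentials -/

/-- the kick potential of the tube `j` -/
noncomputable def VK (ν : ℕ → ℕ) (b u : ℝ) (cb β psi : ℝ → ℝ) (j : ℕ) (p : E 1) : ℝ :=
  aa ν j * (β (eta u j (p.1 1) p.2 / ss u j) * cb ((p.2 - tau j) / dd j) *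
    psi (p.1 0 - b * p.1 1 - hf j))

/-- [BND] summable bounds of all derivatives of the kick potentials; the bounds of the orders at most
`κ` do not depend on `ν` -/
def S_BND : Prop := ∀ (κ : ℕ) (b u : ℝ) (χ cb β psi : ℝ → ℝ), 0 < u → u ≤ 1 → Sh u χ cb β psi →
  ∃ v : ℕ → ℕ → ℝ, (∀ n, n ≤ κ → Summable (v n)) ∧ ∀ ν : ℕ → ℕ, (∀ i, κ ≤ ν i) →
    Tendsto ν atTop atTop → (∀ j, ContDiff ℝ ∞ (VK ν b u cb β psi j)) ∧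
    (∀ n, n ≤ κ → ∀ j p, ‖iteratedFDeriv ℝ n (VK ν b u cb β psi j) p‖ ≤ v n j) ∧
    ∀ n : ℕ, ∃ w : ℕ → ℝ, Summable w ∧
      ∀ j p, ‖iteratedFDeriv ℝ n (VK ν b u cb β psi j) p‖ ≤ w j

/-- [GLU] sums of smooth bumps with disjoint supports, periodic extension; the index `j₁` depends only
on the bounds `v` -/
def S_GLU : Prop := ∀ (κ : ℕ) (v : ℕ → ℕ → ℝ) (ε : ℝ), 0 < ε → (∀ n, n ≤ κ → Summable (v n)) →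
  ∃ j₁ : ℕ, ∀ (V : ℕ → E 1 → ℝ) (A : ℕ → Set (E 1)),
  (∀ j, ContDiff ℝ ∞ (V j)) → (∀ j p, V j p ≠ 0 → p ∈ A j) →
  (∀ j p, p ∈ A j → p.1 1 ∈ Icc (5 / 16 : ℝ) (11 / 16) ∧ p.2 ∈ Icc (-1 / 4 : ℝ) (3 / 8)) →
  (∀ j, IsClosed (A j)) → (∀ j j' p, j ≠ j' → p ∈ A j → p ∉ A j') →
  (∀ j p (n : ℤ), V j (p + (Pi.single 0 (n : ℝ), 0)) = V j p) →
  (∀ n, n ≤ κ → ∀ j p, ‖iteratedFDeriv ℝ n (V j) p‖ ≤ v n j) →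
  (∀ n : ℕ, ∃ w : ℕ → ℝ, Summable w ∧ ∀ j p, ‖iteratedFDeriv ℝ n (V j) p‖ ≤ w j) →
  ∀ j₀ : ℕ, j₁ ≤ j₀ → ∃ g : E 1 → ℝ, ContDiff ℝ ∞ g ∧ Per g ∧ Smk κ g ε ∧
    (∀ p : E 1, (|p.1 1| ≤ 1 / 4 ∨ |p.1 1 - 1| ≤ 1 / 4) → fderiv ℝ g p = 0) ∧
    (∀ p : E 1, |p.1 1 - 1 / 2| ≤ 1 / 4 →
      (∀ (j : ℕ) (n : ℤ), j₀ ≤ j → (p.1, p.2 + n) ∉ A j) → fderiv ℝ g p = 0) ∧
    (∀ j : ℕ, j₀ ≤ j → ∀ p ∈ A j, fderiv ℝ g p = fderiv ℝ (V j) p) ∧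
    ((∀ (j : ℕ) (x x' y t : ℝ), V j (pt x y t) = V j (pt x' y t)) →
      ∀ x x' y t : ℝ, g (pt x y t) = g (pt x' y t))

/-- the tube potentials: the control potential `S`, and the kick potentials `K` for all `ν` -/
def S_POT : Prop := ∀ (κ : ℕ) (b u ε : ℝ), 2 ≤ κ → 0 < u → u ≤ 1 → 0 < ε →
  ∃ (j₀ : ℕ) (S : E 1 → ℝ) (χ ps cb : ℝ → ℝ), 1 ≤ j₀ ∧ Shp u χ ps cb ∧
    Sm S ∧ Smk κ S ε ∧ (∀ x x' y t : ℝ, S (pt x y t) = S (pt x' y t)) ∧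
    (∀ x y t : ℝ, (|y| ≤ 1 / 4 ∨ |y - 1| ≤ 1 / 4) → dX 1 S (pt x y t) = 0) ∧
    (∀ j, j₀ ≤ j → ∀ x y t : ℝ, |y - 1 / 2| ≤ 1 / 4 → |eta u j y t| ≤ ss u j →
      dX 1 S (pt (x + b * y) y t) =
        ee j * (eta u j y t * χ y + eta u j y t ^ 2 / 2 * deriv χ y)) ∧
    ∀ ν : ℕ → ℕ, (∀ i, κ ≤ ν i) → Tendsto ν atTop atTop → ∃ K : E 1 → ℝ,
      Sm K ∧ Smk κ K ε ∧
      (∀ x y t : ℝ, (|y| ≤ 1 / 4 ∨ |y - 1| ≤ 1 / 4) →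
        dX 0 K (pt x y t) = 0 ∧ dX 1 K (pt x y t) = 0) ∧
      ∀ j, j₀ ≤ j → ∀ x y t : ℝ, |y - 1 / 2| ≤ 1 / 4 → |eta u j y t| ≤ ss u j →
        dX 0 K (pt (x + b * y) y t) =
          aa ν j * cb ((t - tau j) / dd j) * ps (x - hf j) ∧
        dX 1 K (pt (x + b * y) y t) + b * dX 0 K (pt (x + b * y) y t) = 0

/-- [POTA] assembly of the tube potentials; `S_BND` and `S_GLU` of `EK` are used for `S` -/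
def S_POTA : Prop := S_SHA → Pool.Agent.Helper69.EK.S_BND → Pool.Agent.Helper69.EK.S_GLU →
  S_BND → S_GLU → S_POT

/-- [ENV] the environment of the tube potentials -/
def S_ENV : Prop := ∀ (κ : ℕ) (st : Sta) (ν : ℕ → ℕ) (b : ℝ) (S K : E 1 → ℝ) (j₀ : ℕ),
  2 ≤ κ → StaOK st j₀ →
  Sm S → Smk κ S (1 / (16 * (1 + |b|) ^ 2)) → (∀ x x' y t : ℝ, S (pt x y t) = S (pt x' y t)) →
  Sm K → Smk κ K (1 / (16 * (1 + |b|) ^ 2)) →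
  (∀ x y t : ℝ, (|y| ≤ 1 / 4 ∨ |y - 1| ≤ 1 / 4) → dX 1 S (pt x y t) = 0) →
  (∀ x y t : ℝ, (|y| ≤ 1 / 4 ∨ |y - 1| ≤ 1 / 4) →
    dX 0 K (pt x y t) = 0 ∧ dX 1 K (pt x y t) = 0) →
  (∀ j, j₀ ≤ j → ∀ x y t : ℝ, |y - 1 / 2| ≤ 1 / 4 →
      |eta (st.l * st.c) j y t| ≤ ss (st.l * st.c) j →
      dX 1 S (pt (x + b * y) y t) =
        ee j * (eta (st.l * st.c) j y t * st.χ y +
          eta (st.l * st.c) j y t ^ 2 / 2 * deriv st.χ y)) →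
  (∀ j, j₀ ≤ j → ∀ x y t : ℝ, |y - 1 / 2| ≤ 1 / 4 →
      |eta (st.l * st.c) j y t| ≤ ss (st.l * st.c) j →
      dX 0 K (pt (x + b * y) y t) =
        aa ν j * st.cb ((t - tau j) / dd j) * st.ps (x - hf j) ∧
      dX 1 K (pt (x + b * y) y t) + b * dX 0 K (pt (x + b * y) y t) = 0) →
  EnvOK (mkEnv st ν b S K) j₀

/-! ### The dynamics -/

/-- [UNIT] one unit of time in the box near the hyperbolic equilibrium -/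
def S_UNIT : Prop := ∀ (st : Sta) (j₀ : ℕ), StaOK st j₀ → ∃ r₀ C₁ C₂ ε₀ : ℝ,
  0 < r₀ ∧ r₀ ≤ 1 / 2 ∧ r₀ ≤ st.l / 32 ∧ 1 ≤ C₁ ∧ 1 ≤ C₂ ∧ 0 < ε₀ ∧
  ∀ e : Env, e.toSta = st → EnvOK e j₀ →
  ∀ (F : Fam) (n : ℕ) (a b T ε R Z K : ℝ), 3 ≤ n → 0 < ε → ε ≤ ε₀ → Ctl e F n ε a b T (T + 1) →
    C₁ * ε ≤ R → R ≤ r₀ → Z ≤ r₀ → 0 ≤ K → K * ε ≤ ε₀ → Box e F a b T R Z K →
    (∃ a' b' : ℝ, a ≤ a' ∧ b' ≤ b ∧ Box e F a' b' (T + 1) (Real.exp (e.l / 2) * R)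
      (Real.exp (-e.l) * Z + C₂ * ε) (Real.exp (-e.l / 4) * K + C₂ * ε)) ∧
    ∀ s ∈ Icc a b, |F.X s (T + 1) - F.X s T - F.J s T| ≤ C₂ * ε ∧
      ∀ t ∈ Icc T (T + 1), |F.w s t| ≤ 1 ∧ |F.J s t - F.J s T| ≤ C₂ * ε ^ n

/-- [WAIT] the waiting time in the box; `theorem wait (unit : S_UNIT) : S_WAIT` -/
def S_WAIT : Prop := ∀ (st : Sta) (j₀ : ℕ), StaOK st j₀ → ∃ r₀ r₁ C₁ C₃ ε₀ : ℝ,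
  0 < r₁ ∧ r₁ ≤ r₀ ∧ r₀ ≤ 1 / 2 ∧ r₀ ≤ st.l / 32 ∧ 1 ≤ C₁ ∧ 1 ≤ C₃ ∧ 0 < ε₀ ∧
  ∀ ε : ℝ, 0 < ε → ε ≤ ε₀ → ∃ (N : ℕ) (R : ℝ), r₁ ≤ R ∧ R ≤ r₀ ∧
    (N : ℝ) ≤ C₃ * Real.log (1 / ε) ∧
    ∀ e : Env, e.toSta = st → EnvOK e j₀ →
    ∀ (F : Fam) (P : ℝ → ℝ → ℝ → Prop) (n : ℕ) (C V₀ k₂ V a b T K : ℝ), 3 ≤ n → C / V = ε →
      V₀ ≤ V → 1 ≤ k₂ → 0 ≤ T → AE e F P n C V₀ k₂ a b → Box e F a b T (C₁ * ε) r₀ K → 0 ≤ K →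
      K * ε ≤ ε₀ → (∀ s ∈ Icc a b, P V s T ∧ V + 2 ≤ F.J s T) →
      ∃ a' b' : ℝ, a ≤ a' ∧ b' ≤ b ∧ Box e F a' b' (T + N) R (C₃ * ε) (C₃ * (√ε * K + ε)) ∧
        ∀ s ∈ Icc a' b', |F.X s (T + N) - F.X s T - N * F.J s T| ≤ C₃ * N * ε ∧
          ∀ t ∈ Icc T (T + N), |F.J s t - F.J s T| ≤ C₃ * N * ε ^ n ∧ P V s t

/-- [LA] the loop: the path passes through the tube `j`, and its ends are driven to different sides of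
the stable manifold -/
def S_LA : Prop := ∀ (st : Sta) (j₀ : ℕ) (H : ℝ → ℝ), StaOK st j₀ → Hom st H →
  ∀ (m : ℕ) (C C₁₀ : ℝ), 1 ≤ C → 1 ≤ C₁₀ → H (-m + 1) < 1 / 8 → 7 / 8 < H (m - 1) →
  ∃ (j₁ : ℕ) (C₇ c₇ : ℝ), j₀ ≤ j₁ ∧ 1 ≤ C₇ ∧ 0 < c₇ ∧
    ∀ e : Env, e.toSta = st → EnvOK e j₀ →
    ∀ (j n : ℕ) (F : Fam) (a b : ℝ) (T : ℕ) (ε : ℝ), 3 ≤ n → j₁ ≤ j → 0 < ε → ε ≤ C₁₀ * qq j →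
      Ent e H m j F a b T n ε C → Thr e H m j F a b T C₇ ∧
      F.w a (T + 2 * m) + e.l * (F.Y a (T + 2 * m) - 1) ≤ -(c₇ * (ee j * ss (e.l * e.c) j)) ∧
      c₇ * (ee j * ss (e.l * e.c) j) ≤ F.w b (T + 2 * m) + e.l * (F.Y b (T + 2 * m) - 1)

/-- [LB] the loop: after the passage through the tube the path is a Lipschitz graph over the unstable
coordinate -/
def S_LB : Prop := ∀ (st : Sta) (j₀ : ℕ) (H : ℝ → ℝ), StaOK st j₀ → Hom st H →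
  ∀ m : ℕ, H (-m + 1) < 1 / 8 → 7 / 8 < H (m - 1) → ∃ (C₈ c₈ : ℝ), 1 ≤ C₈ ∧ 0 < c₈ ∧
  ∀ (C C₁₀ C₇ : ℝ), 1 ≤ C → 1 ≤ C₁₀ → 1 ≤ C₇ → ∃ j₁ : ℕ, j₀ ≤ j₁ ∧
    ∀ e : Env, e.toSta = st → EnvOK e j₀ →
    ∀ (j n : ℕ) (F : Fam) (a b : ℝ) (T : ℕ) (ε K₁ : ℝ), 3 ≤ n → j₁ ≤ j → 0 < ε →
      ε ≤ C₁₀ * qq j → Ent e H m j F a b T n ε C → Thr e H m j F a b T C₇ →
      0 ≤ K₁ → K₁ ≤ c₈ * ee j →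
      (∀ s ∈ Icc a b, ∀ s' ∈ Icc a b, |ze e F s T - ze e F s' T| + |F.X s T - F.X s' T| +
        |F.J s T - F.J s' T| ≤ K₁ * |F.Y s T - F.Y s' T|) →
      ∀ s ∈ Icc a b, ∀ s' ∈ Icc a b,
        |ze e F s (T + 2 * m) - ze e F s' (T + 2 * m)| +
        e.l / 4 * |F.X s (T + 2 * m) - F.X s' (T + 2 * m)| +
        |F.J s (T + 2 * m) - F.J s' (T + 2 * m)| ≤
        C₈ / ee j * |xi e F s (T + 2 * m) - xi e F s' (T + 2 * m)|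

/-- [LC] the loop: the kick -/
def S_LC : Prop := ∀ (st : Sta) (j₀ : ℕ) (H : ℝ → ℝ), StaOK st j₀ → Hom st H →
  ∀ (m n : ℕ) (C C₁₀ C₇ : ℝ), 3 ≤ n → 1 ≤ C → 1 ≤ C₁₀ → 1 ≤ C₇ → H (-m + 1) < 1 / 8 →
  7 / 8 < H (m - 1) →
  ∃ (j₁ : ℕ) (c₉ : ℝ), j₀ ≤ j₁ ∧ 0 < c₉ ∧
    ∀ e : Env, e.toSta = st → EnvOK e j₀ →
    ∀ (j : ℕ) (F : Fam) (a b : ℝ) (T : ℕ) (ε : ℝ), e.ν (j / 3) + 3 = n → j₁ ≤ j → 0 < ε →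
      ε ≤ C₁₀ * qq j → Ent e H m j F a b T n ε C → Thr e H m j F a b T C₇ →
      (∀ s ∈ Icc a b, |F.J s T| ≤ 2 * 2 ^ (j / 3) + 3 ∧ ∃ n : ℤ,
        F.X s T + F.J s T * (m + tau j) - hf j - n ∈ Icc (1 / 24 : ℝ) (7 / 8 - 1 / 24)) →
      ∀ s ∈ Icc a b, F.J s T + c₉ * (ee j * dd j ^ (n - 3) * dd j) ≤ F.J s (T + 2 * m) ∧
        ∀ t ∈ Icc (T : ℝ) (T + 2 * m), |F.J s t - F.J s T| ≤ 1 ∧ |F.w s t| ≤ 1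

/-- the numerical conditions in the block `i`, for the order `n` of averaging and the waiting time
`N` -/
structure Num (e : Sta) (H : ℝ → ℝ) (m n : ℕ) (C₁ r₀ r₁ C₃ C₇ c₇ C₈ c₈ c₉ V₀ ε : ℝ) (i N : ℕ) :
    Prop where
  eps : 0 < ε
  i4 : 4 ≤ i
  hV : V₀ ≤ (2 : ℝ) ^ i - 3
  n0 : C₃ * N * ε ^ n ≤ 1 / 4
  n1 : ∀ j, j / 3 = i → C₃ * N * ε ^ n ≤ c₉ / 2 * (ee j * dd j ^ (n - 3) * dd j)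
  n2 : 2 * C₈ / ee (3 * i) * (2 * (C₁ * ε)) ≤ 1 / 4
  n2' : 2 * C₈ / ee (3 * i) * (2 * rr i) ≤ 1 / 4
  n3 : C₃ * (√ε * (2 * C₈ / ee (3 * i)) + ε) ≤ 1 / 2
  n3' : ∀ j, j / 3 = i → 16 * (C₃ * (√ε * (2 * C₈ / ee (3 * i)) + ε)) ≤ c₈ * ee j
  n4 : C₃ * ε ≤ r₁ / 2
  n5 : ∀ j, j / 3 = i →
    ss (e.l * e.c) j / (2 * (e.l * e.c)) ≤ 1 / 4 ∧ 0 < tau j ∧ tau j ≤ 1 / 2 ∧
      0 < ss (e.l * e.c) j ∧ 0 < ee j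
  n6 : 4 / e.l * (2 * C₈ / ee (3 * i) * (2 * (C₁ * ε))) +
    N * (2 * C₈ / ee (3 * i) * (2 * (C₁ * ε))) +
    (m + 1) * (2 * C₈ / ee (3 * i) * (2 * (C₁ * ε)) + C₃ * N * ε ^ n) + C₃ * N * ε ≤ 1 / 96
  n7 : C₁ * ε ≤ rr i
  n7' : ∀ j, j / 3 = i → rr i ≤ c₇ * (ee j * ss (e.l * e.c) j)
  n8 : ∀ j, j / 3 = i → C₇ * ss (e.l * e.c) j < H (m - 1) - 7 / 8 ∧
    C₇ * ss (e.l * e.c) j ≤ 1 / 8 ∧ 2 * e.l * (1 - H (m - 1)) + 2 * e.l * (C₇ * ss (e.l * e.c) j) +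
    C₇ * (ee j * ss (e.l * e.c) j) ≤ 3 / 4 * r₀
  n9 : ∀ j, j / 3 = i → C₈ / ee j = 2 * C₈ / (2 * ee (3 * i))
  n10 : 0 < ee (3 * i)
  n11 : ∀ j, j / 3 = i → 0 < c₉ / 2 * (ee j * dd j ^ (n - 3) * dd j)

/-- [NUM] the numerical conditions hold in all blocks which are large enough -/
def S_NUM : Prop := ∀ (st : Sta) (j₀ : ℕ) (H : ℝ → ℝ), StaOK st j₀ → Hom st H → ∀ m n : ℕ, 3 ≤ n →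
  ∀ C₁ r₀ r₁ C₃ C₇ c₇ C₈ c₈ c₉ V₀ C ε₀ : ℝ, 1 ≤ C → 1 ≤ C₁ → 1 ≤ C₃ → 1 ≤ C₇ → 1 ≤ C₈ →
    0 < c₇ → 0 < c₈ → 0 < c₉ → 0 < r₀ → 0 < r₁ → 0 < ε₀ →
    7 / 8 < H (m - 1) → 1 - r₀ / (4 * st.l) < H (m - 1) →
    ∀ᶠ i : ℕ in atTop, (∀ N : ℕ, (N : ℝ) ≤ C₃ * Real.log (1 / (C / ((2 : ℝ) ^ i - 3))) →
        Num st H m n C₁ r₀ r₁ C₃ C₇ c₇ C₈ c₈ c₉ V₀ (C / ((2 : ℝ) ^ i - 3)) i N) ∧
      C / ((2 : ℝ) ^ i - 3) ≤ ε₀ ∧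
      1 / 2 * (C / ((2 : ℝ) ^ i - 3)) + 2 * C₈ / ee (3 * i) * (C / ((2 : ℝ) ^ i - 3)) ≤ ε₀ ∧
      ∀ j, j / 3 = i → C / ((2 : ℝ) ^ i - 3) ≤ 8 * C * qq j

/-- one cycle: waiting, choice of the tube according to the phase, loop, restriction of the path;
either the path stays in the block `i`, or it is at the end of the block -/
def S_STEP : Prop := ∀ (st : Sta) (j₀ : ℕ) (H : ℝ → ℝ), StaOK st j₀ → Hom st H →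
  ∃ (m : ℕ) (r₀ K₀ : ℝ), 1 ≤ m ∧ 0 < r₀ ∧ r₀ ≤ 1 / 2 ∧ 1 ≤ K₀ ∧
  ∀ (n : ℕ) (C V₀ : ℝ), 3 ≤ n → 1 ≤ C → 1 ≤ V₀ → ∃ i₁ : ℕ, 2 ≤ i₁ ∧
    ∀ e : Env, e.toSta = st → EnvOK e j₀ → ∀ i : ℕ, i₁ ≤ i → e.ν i + 3 = n →
    ∃ κ : ℝ, 0 < κ ∧
    ∀ (b : ℝ) (G : ℤ → Fam) (P : ℝ → ℝ → ℝ → Prop) (a c : ℝ) (T : ℕ) (N : ℤ) (J : ℝ),
      Shf b G → (∀ N, AE e (G N) P n C V₀ (2 * m) a c) →
      Good e (G N) P r₀ K₀ (rr i) i a c T J →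
      ∃ (a' c' : ℝ) (T' : ℕ) (J' : ℝ), a ≤ a' ∧ c' ≤ c ∧ T < T' ∧
        ((J + κ ≤ J' ∧ Good e (G (N + 1)) P r₀ K₀ (rr i) i a' c' T' J') ∨
          Out e (G (N + 1)) P r₀ K₀ (rr i) i a' c' T' J') ∧
        ∀ s ∈ Icc a' c', ∀ t ∈ Icc (T : ℝ) T', P ((2 : ℝ) ^ i - 3) s t

/-- [STEPA] one cycle: assembly -/
def S_STEPA : Prop := S_NUM → S_WAIT → S_LA → S_LB → S_LC → S_STEP

/-- [ITER] infinite iteration -/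
def S_ITER : Prop := ∀ (Q : ℕ → ℤ → ℝ → ℝ → ℕ → ℝ → Prop) (P : ℝ → ℝ → ℝ → Prop) (i₁ : ℕ),
  (∀ i : ℕ, i₁ ≤ i → ∃ κ : ℝ, 0 < κ ∧ ∀ (N : ℤ) (a c : ℝ) (T : ℕ) (J : ℝ), Q i N a c T J →
    a ≤ c ∧ (2 : ℝ) ^ i ≤ J ∧ J < (2 : ℝ) ^ (i + 1) + 1 ∧
      ∃ (a' c' : ℝ) (T' i' : ℕ) (J' : ℝ),
      a ≤ a' ∧ c' ≤ c ∧ T < T' ∧ ((i' = i ∧ J + κ ≤ J') ∨ i' = i + 1) ∧ Q i' (N + 1) a' c' T' J' ∧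
      ∀ s ∈ Icc a' c', ∀ t ∈ Icc (T : ℝ) T', P ((2 : ℝ) ^ i - 3) s t) →
  ∀ (i : ℕ) (N : ℤ) (a c : ℝ) (T : ℕ) (J : ℝ), i₁ ≤ i → Q i N a c T J →
    ∃ s ∈ Icc a c, ∀ V : ℝ, ∃ T₁ : ℝ, ∀ t : ℝ, T₁ ≤ t → ∃ V' : ℝ, V ≤ V' ∧ P V' s t

/-- [NU] the choice of the orders -/
def S_NU : Prop := ∀ (τ : ℕ → ℕ) (κ : ℕ), ∃ ν : ℕ → ℕ, (∀ i, κ ≤ ν i) ∧ Tendsto ν atTop atTop ∧
  ∃ i₀ : ℕ, ∀ i, i₀ ≤ i → (ν (i + 1) = ν i ∨ ν (i + 1) = ν i + 1) ∧ τ (ν i) ≤ i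

/-- [SWI] the change of the order of averaging at the end of a block -/
def S_SWI : Prop := ∀ (st : Sta) (j₀ : ℕ) (b r₀ K₀ C V C' V' : ℝ)
  (Jf wf Jf' wf' : ℝ → ℝ → E 1 → ℝ), StaOK st j₀ → 0 < r₀ → r₀ ≤ 1 / 2 → 1 ≤ K₀ → 1 ≤ C → 1 ≤ V →
  1 ≤ C' → 1 ≤ V' → NearId Jf wf C V → NearId Jf' wf' C' V' →
  ∃ i₂ : ℕ, ∀ e : Env, e.toSta = st →
    ∀ (i : ℕ) (p₀ p₁ v q : ℝ → ℝ → ℝ) (N : ℤ) (a c : ℝ) (T : ℕ) (J : ℝ), i₂ ≤ i →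
    (Continuous (fun s => p₀ s T) ∧ Continuous (fun s => p₁ s T) ∧
      Continuous (fun s => v s T) ∧ Continuous (fun s => q s T)) →
    Out e (mkFam b Jf wf p₀ p₁ v q N) (Pv v q) r₀ K₀ (rr i) i a c T J →
    ∃ a' c' J' : ℝ, a ≤ a' ∧ c' ≤ c ∧
      Good e (mkFam b Jf' wf' p₀ p₁ v q N) (Pv v q) r₀ K₀ (rr (i + 1)) (i + 1) a' c' T J'

/-- averaging of the order `n` -/
def S_AVE : Prop := ∀ (n : ℕ) (st : Sta) (b k₂ : ℝ) (F S : E 1 → ℝ), 3 ≤ n →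
  0 < st.α → 0 < st.γ → 0 < st.l → st.l ≤ 1 / 2 → 0 ≤ k₂ → Prof st.k st.c →
  Sm F → (∀ p, av F p = 0) → Sm S → (∀ x x' y t : ℝ, S (pt x y t) = S (pt x' y t)) →
  ∃ (Jf wf : ℝ → ℝ → E 1 → ℝ) (C V₀ : ℝ), 1 ≤ C ∧ 1 ≤ V₀ ∧ NearId Jf wf C V₀ ∧
    ∀ (ν : ℕ → ℕ) (K f : E 1 → ℝ), ContDiff ℝ 2 K → Per K → Small K 1 →
      (∀ p, dX 0 f p = dX 0 F p + dX 0 K p ∧
        dX 1 f p = dX 1 F p + st.l ^ 2 / st.γ * st.k (p.1 1) * deriv st.k (p.1 1) + dX 1 S p +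
          dX 1 K p) →
      ∀ p₀ p₁ v q : ℝ → ℝ → ℝ, (∀ s, Tr st.α st.γ b f (p₀ s) (p₁ s) (v s) (q s)) →
        (∀ t, Continuous (fun s => p₀ s t) ∧ Continuous (fun s => p₁ s t) ∧
          Continuous (fun s => v s t) ∧ Continuous (fun s => q s t)) →
        ∀ (N : ℤ) (a₁ a₂ : ℝ), AE (mkEnv st ν b S K) (mkFam b Jf wf p₀ p₁ v q N)
          (Pv v q) n C V₀ k₂ a₁ a₂

/-- [AVB] -/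
def S_AVB : Prop := S_HJ → S_INV → S_AVA → S_AVL → S_AVE

/-- [START] the initial path -/
def S_START : Prop := ∀ (st : Sta) (j₀ : ℕ) (b C' V' r₀ K₀ : ℝ) (Jf wf : ℝ → ℝ → E 1 → ℝ),
  StaOK st j₀ → 1 ≤ C' → 1 ≤ V' → NearId Jf wf C' V' → 0 < r₀ → 1 ≤ K₀ →
  ∃ i₂ : ℕ, ∀ e : Env, e.toSta = st → ∀ (i : ℕ) (p₀ p₁ v q : ℝ → ℝ → ℝ), i₂ ≤ i →
    (∀ s, p₀ s 0 = b * s ∧ p₁ s 0 = s ∧ v s 0 = (2 : ℝ) ^ i + 1 ∧ q s 0 = e.l * s) →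
    ∃ a c J : ℝ, -1 ≤ a ∧ c ≤ 1 ∧
      Good e (mkFam b Jf wf p₀ p₁ v q 0) (Pv v q) r₀ K₀ (rr i) i a c 0 J

/-- [CT] the theorem in adapted coordinates -/
def S_CT : Prop := ∀ (κ : ℕ) (A : Matrix (Fin (1 + 1)) (Fin (1 + 1)) ℝ) (h : E 1 → ℝ) (ε : ℝ),
  2 ≤ κ → 0 < ε → A.PosDef → Sm h → (∀ p q : E 1, p.2 = q.2 → av h p = av h q) →
  ∃ (g : E 1 → ℝ) (γ : ℝ → Q 1), Sm g ∧ Smk κ g ε ∧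
    Sol A (fun p => h p + g p) γ univ ∧ Tendsto (deriv fun s => γ s 0) atTop atTop

/-- the theorem -/
def S_FIN : Prop := ∀ (κ : ℕ) (A : Matrix (Fin (1 + 1)) (Fin (1 + 1)) ℝ) (f₀ : E 1 → ℝ) (ε : ℝ),
  2 ≤ κ → 0 < ε → A.PosDef → ContDiff ℝ κ f₀ → Per f₀ →
  ∃ (f : E 1 → ℝ) (γ : ℝ → Q 1), Sm f ∧ Smk κ (fun p => f p - f₀ p) ε ∧
    Sol A f γ univ ∧ ∀ V : ℝ, ∀ᶠ t : ℝ in atTop, ∃ i, V ≤ |deriv (fun s => γ s i) t|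

/-- [RED] reduction to adapted coordinates -/
def S_RED : Prop :=
  Pool.Agent.Helper69.EK.S_MOL → Pool.Agent.Helper69.EK.S_AVG → S_CT → S_FIN

end Pool.Agent.Helper69.EL
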